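import Pool.Agent.N657.QL.Stm

/-!
# Project QL: the neutral point has the lowest energy
-/

namespace Pool.Agent.N657.QL

open Pool.Agent.N657.QR

theorem min_of (hB : S_BAS) (hR : Pool.Agent.N657.QR.S_RSD) : S_MIN := by
  intro V _ _ _ K w ν N hK hw
  have hd : ∀ (ν : V → ℝ) (N : ℤ), en K w ((2 : ℝ) • ν) (2 * N) - en K w 0 0 ≤
      4 * (en K w ν N - en K w 0 0) := by
    intro ν N
    have h := hR K K w w ν ν N N hK hK (by rw [sub_self]; exact Matrix.PosSemidef.zero) hw hw
    rw [sup_idem, inf_idem, sub_self, sub_self, ← two_smul ℝ ν, ← two_mul N] at h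
    linarith
  have hk : ∀ k : ℕ, en K w ((2 : ℝ) ^ k • ν) (2 ^ k * N) - en K w 0 0 ≤
      4 ^ k * (en K w ν N - en K w 0 0) := by
    intro k
    induction k with
    | zero => simp
    | succ k ih =>
      have h1 := hd ((2 : ℝ) ^ k • ν) (2 ^ k * N)
      rw [← mul_assoc, ← pow_succ', smul_smul, ← pow_succ'] at h1
      rw [pow_succ' (4 : ℝ), mul_assoc]
      linarith
  by_contra hcon
  push Not at hcon
  have hpos : 0 < en K w 0 0 - en K w ν N := by linarith
  obtain ⟨k, hk2⟩ := pow_unbounded_of_one_lt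
    (((∑ x, ∑ y, w x y) + en K w 0 0) / (en K w 0 0 - en K w ν N)) (show (1 : ℝ) < 4 by norm_num)
  rw [div_lt_iff₀ hpos] at hk2
  have h1 := hB.enlow K w ((2 : ℝ) ^ k • ν) (2 ^ k * N) hK hw
  have h2 := hk k
  nlinarith

end Pool.Agent.N657.QL
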