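import Pool.Agent.N657.QL.Fin2
import Pool.Agent.N657.QL.MinA
import Pool.Agent.N657.QR.All
import Pool.Agent.N252.QL_MEAS
import Pool.Agent.N498.QL_TPS
import Pool.Agent.N457.QL_TPB
import Pool.Agent.N664.QL_OPR
import Pool.Agent.N498.QL_SYM
import Pool.Agent.N402.QL_ENV
import Pool.Agent.N402.QL_ROTA
import Pool.Agent.N374.QL_RATIO
import Pool.Agent.N691.QL_TRANS
import Pool.Agent.N482.QL_LONG
import Pool.Agent.N8.QL_SQ
import Pool.Agent.N252.QL_PLA
import Pool.Agent.N402.QL_SUMQ
import Pool.Agent.N222.QL_UP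
import Pool.Agent.N252.QL_SYMG
import Pool.Agent.N690.QL_M0G
import Pool.Agent.N252.QL_UNCG
import Pool.Agent.N987.QL_LOWG
import Pool.Agent.N822.QL_GAM
import Pool.Agent.N839.QL_DIF
import Pool.Agent.N989.QL_LALL
import Pool.Agent.N252.QL_RIE

/-!
# Project QL: all parts together
-/

namespace Pool.Agent.N657.QL

open Pool.Agent.N657.QR

theorem meas : S_MEAS := Pool.Agent.N252.QLM.main
theorem tps : S_TPS := Pool.Agent.N498.QL_TPS.main
theorem tpb : S_TPB := Pool.Agent.N457.QLT.main
theorem opr : S_OPR := Pool.Agent.N664.QL_OPR.main bas eig tps tpb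
theorem sym : S_SYM := Pool.Agent.N498.QL_SYM.main bas un con
theorem env : S_ENV := Pool.Agent.N402.QL_ENV.main bas meas opr sym gd irb tps tpb
theorem rota : S_ROTA := Pool.Agent.N402.QL_ROTA.main tpb
theorem ratio : S_RATIO := Pool.Agent.N374.QLRATIO.main
theorem trans : S_TRANS := Pool.Agent.N691.QLT.main tpb rota ratio
theorem long : S_LONG := Pool.Agent.N482.QLLONG.main tpb rota ratio
theorem sqq : S_SQ := Pool.Agent.N8.QLSQ.main tpb
theorem pla : S_PLA := Pool.Agent.N252.QLP.main
theorem sumq : S_SUMQ := Pool.Agent.N402.QL_SUMQ.main tpb sqq pla lat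
theorem up : S_UP := Pool.Agent.N222.QLUP.main tpb sumq pla lat ratio trans long
theorem min_ : S_MIN := min_of bas rsd
theorem symg : S_SYMG := Pool.Agent.N252.QLSG.main bas un con
theorem m0g : S_M0G := Pool.Agent.N690.QLM.main bas lb eig symg min_
theorem uncg : S_UNCG := Pool.Agent.N252.QLUG.main bas m0g symg eig
theorem lowg : S_LOWG := Pool.Agent.N987.QLLOWG.main bas uncg neu ex cmp con pla lat
theorem gam : S_GAM := Pool.Agent.N822.QLGAM.main
theorem dif : S_DIF := Pool.Agent.N839.QLD.main bas min_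
theorem lall : S_LALL := Pool.Agent.N989.QL_LALL.main bas ex lb lowg dif gam
theorem rie : S_RIE := Pool.Agent.N252.QLR.main

end Pool.Agent.N657.QL
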