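import Pool.Agent.N657.QL.Stm3
import Pool.Agent.N482.QL_LONG

/-!
# Project QL: the bound without the condition `Cub` (proof copied from the imported file)
-/

set_option autoImplicit false

namespace Pool.Agent.N482.QLLONG

open MeasureTheory Filter Topology
open Pool.Agent.N657.QR Pool.Agent.N657.QL

theorem mainN (hT : S_TPB) (hR : S_ROTA) (hQ : S_RATIO) : S_LONGN := by
  intro M δ hδ
  rcases Nat.eq_zero_or_pos M with hM | hM
  · refine ⟨1, 0, one_pos, le_rfl, ?_⟩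
    intro d L _ U l μ f hU hl hE hf ha
    have h0 : ∀ θ : (Fin d → ZMod L) → ℝ, cM M (r2 θ) * Lf f θ ^ 2 = 0 := by
      intro θ
      rw [hM]
      simp [cM]
    simp only [h0, integral_zero, zero_mul, add_zero]
    have : 0 ≤ ∑ x, f x ^ 2 := Finset.sum_nonneg fun _ _ => sq_nonneg _
    positivity
  obtain ⟨hc, hb, -⟩ := hQ.2 M hM
  set A : ℝ := AM M 1 with hA
  have hA1 : 1 ≤ A := (hb 1 zero_le_one le_rfl).1
  set Q : ℝ := 4 ^ M with hQd
  have hQ0 : 0 < Q := by positivity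
  set K : ℝ := (A + 1) / (2 * δ) with hK
  have hK0 : 0 < K := by positivity
  have hKδ : K * δ = (A + 1) / 2 := by rw [hK]; field_simp
  set C' : ℝ := Q * (4 + 2 * (M : ℝ) ^ 2) with hC'
  have hC'0 : 0 ≤ C' := by positivity
  refine ⟨δ / (4 * Q * K), K / 2 * ((M : ℝ) ^ 2 * Q ^ 2 + C'), by positivity, by positivity, ?_⟩
  intro d L _ U l μ f hU hl hE hf ha
  have := hE.prob
  obtain ⟨m1, m2, m3, m4, m5, m6, m7, m8⟩ := hT.mem f
  set v : ℝ := (Fintype.card (Fin d → ZMod L) : ℝ) with hv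
  have hv0 : 0 < v := by rw [hv]; exact_mod_cast Fintype.card_pos
  set σ : ℝ := ∑ x, f x ^ 2 with hσ
  have hσ0 : 0 ≤ σ := Finset.sum_nonneg fun _ _ => sq_nonneg _
  set a : ℝ := Real.sqrt U with had
  set b : ℝ := Real.sqrt l with hbd
  have ha0 : 0 < a := Real.sqrt_pos.2 hU
  have hb0 : 0 < b := Real.sqrt_pos.2 hl
  have haU : U = a ^ 2 := (Real.sq_sqrt hU.le).symm
  have hbl : l = b ^ 2 := (Real.sq_sqrt hl.le).symm
  rcases hσ0.eq_or_lt with hσz | hσp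
  · -- f = 0
    have hf0 : ∀ x, f x = 0 := by
      intro x
      have h1 := (Finset.sum_eq_zero_iff_of_nonneg (fun x _ => sq_nonneg (f x))).1 hσz.symm x
        (Finset.mem_univ x)
      exact pow_eq_zero_iff (two_ne_zero) |>.1 h1
    have h0 : ∀ θ : (Fin d → ZMod L) → ℝ, cM M (r2 θ) * Lf f θ ^ 2 = 0 := by
      intro θ
      have : Lf f θ = 0 := by simp [Lf, Xf, Yf, hf0]
      rw [this]; ring
    simp only [h0, integral_zero]
    positivity
  set W : ℝ := ∫ θ, cM M (r2 θ) * Lf f θ ^ 2 ∂μ with hW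
  obtain ⟨ro1, -, ro3, -⟩ := hR d L U μ hE M f
  have hN : ∫ θ, Nf f θ ∂μ ≤ a / b * σ := hE.irb l f hl hf
  -- bounds
  have b0 : ∫ θ, (1 + mx θ) ^ (2 * M) ∂μ ≤ A := by
    rw [ro1]
    have h1 : ∫ θ, AM M (r2 θ) ∂μ ≤ ∫ _θ : (Fin d → ZMod L) → ℝ, A ∂μ := by
      refine integral_mono_of_nonneg (Eventually.of_forall fun θ => ?_) (integrable_const _)
        (Eventually.of_forall fun θ => ?_)
      · obtain ⟨c1, c2, -⟩ := hT.bounds f θ
        exact zero_le_one.trans (hb _ c1 c2).1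
      · obtain ⟨c1, c2, -⟩ := hT.bounds f θ
        exact (hb _ c1 c2).2.1
    simpa using h1
  have hiN : Integrable (fun θ => Nf f θ) μ := integ hT m6
  have b2 : ∫ θ, Lf f θ ^ 2 * (1 + mx θ) ^ (2 * M) ∂μ ≤ Q * (a / b * σ) := by
    have h1 : ∫ θ, Lf f θ ^ 2 * (1 + mx θ) ^ (2 * M) ∂μ ≤ ∫ θ, Q * Nf f θ ∂μ := by
      refine integral_mono_of_nonneg (Eventually.of_forall fun θ => ?_) (hiN.const_mul _)
        (Eventually.of_forall fun θ => ?_)
      · have := (mx_bd hT θ).1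
        simp only [Pi.zero_apply]
        positivity
      · simp only
        have h2 := P_bd hT M θ
        rw [← pow_mul, mul_comm M 2] at h2
        rw [mul_comm]
        exact mul_le_mul h2 (Lf_le hT f θ) (sq_nonneg _) hQ0.le
    rw [integral_const_mul] at h1
    exact h1.trans (mul_le_mul_of_nonneg_left hN hQ0.le)
  have g0 : ∫ θ, gr ((1 + mx) ^ M) θ ∂μ ≤ (M : ℝ) ^ 2 * Q / v := by
    have h1 : ∫ θ, gr ((1 + mx) ^ M) θ ∂μ ≤
        ∫ _θ : (Fin d → ZMod L) → ℝ, (M : ℝ) ^ 2 * Q / v ∂μ :=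
      integral_mono_of_nonneg (Eventually.of_forall fun θ =>
        Finset.sum_nonneg fun _ _ => sq_nonneg _) (integrable_const _)
        (Eventually.of_forall fun θ => grP_bd hT M θ)
    simpa using h1
  have hiq : ∀ x : Fin d → ZMod L, Integrable (fun θ => f x ^ 2 * qx x θ) μ := fun x =>
    (integ hT (qx_mem hT x)).const_mul _
  have g2 : ∫ θ, gr ((1 + mx) ^ M * Lf f) θ ∂μ ≤ 4 * Q * (σ * a1 μ) + C' / v * (a / b * σ) := by
    have hi1 : Integrable (fun θ => 4 * Q * ∑ x, f x ^ 2 * qx x θ) μ :=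
      (integrable_finset_sum _ fun x _ => hiq x).const_mul _
    have hi2 : Integrable (fun θ => C' / v * Nf f θ) μ := hiN.const_mul _
    have h1 : ∫ θ, gr ((1 + mx) ^ M * Lf f) θ ∂μ ≤
        ∫ θ, (4 * Q * (∑ x, f x ^ 2 * qx x θ) + C' / v * Nf f θ) ∂μ :=
      integral_mono_of_nonneg (Eventually.of_forall fun θ =>
        Finset.sum_nonneg fun _ _ => sq_nonneg _) (hi1.add hi2)
        (Eventually.of_forall fun θ => grPL_bd hT M f θ)
    rw [integral_add hi1 hi2, integral_const_mul, integral_const_mul,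
      integral_finsetSum _ fun x _ => hiq x] at h1
    refine h1.trans (add_le_add ?_ (mul_le_mul_of_nonneg_left hN (by positivity)))
    apply mul_le_mul_of_nonneg_left _ (by positivity)
    rw [hσ, Finset.sum_mul]
    refine Finset.sum_le_sum fun x _ => ?_
    rw [integral_const_mul]
    exact mul_le_mul_of_nonneg_left (qx_int hT hE x) (sq_nonneg _)
  -- parameters
  set s : ℝ := K * b / a with hs
  set T : ℝ := a / (K ^ 2 * Q * σ * b) with hTd
  have hs0 : 0 < s := by positivity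
  have hT0 : 0 < T := by positivity
  have ht2 : Real.sqrt T * Real.sqrt T = T := Real.mul_self_sqrt hT0.le
  have h1 := ineq hT hE hf M (Real.sqrt T) (Real.sqrt T * s)
  rw [ro3] at h1
  have q1 : 2 * Real.sqrt T * l * (Real.sqrt T * s) = T * (2 * s * b ^ 2) := by
    rw [hbl]
    calc _ = (Real.sqrt T * Real.sqrt T) * (2 * s * b ^ 2) := by ring
      _ = _ := by rw [ht2]
  have q2 : (Real.sqrt T * s) ^ 2 = T * s ^ 2 := by
    rw [mul_pow, pow_two (Real.sqrt T), ht2]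
  have q3 : Real.sqrt T ^ 2 = T := by rw [pow_two, ht2]
  rw [q1, q2, q3] at h1
  have h2 : U * ((∫ θ, gr ((1 + mx) ^ M) θ ∂μ) + T * s ^ 2 * ∫ θ, gr ((1 + mx) ^ M * Lf f) θ ∂μ) ≤
      a ^ 2 * ((M : ℝ) ^ 2 * Q / v + T * s ^ 2 * (4 * Q * (σ * a1 μ) + C' / v * (a / b * σ))) := by
    rw [haU]
    apply mul_le_mul_of_nonneg_left _ (sq_nonneg _)
    exact add_le_add g0 (mul_le_mul_of_nonneg_left g2 (by positivity))
  have h3 : T * l / 2 * σ * ((∫ θ, (1 + mx θ) ^ (2 * M) ∂μ) +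
        T * s ^ 2 * ∫ θ, Lf f θ ^ 2 * (1 + mx θ) ^ (2 * M) ∂μ) ≤
      T * b ^ 2 / 2 * σ * (A + T * s ^ 2 * (Q * (a / b * σ))) := by
    rw [hbl]
    apply mul_le_mul_of_nonneg_left _ (by positivity)
    exact add_le_add b0 (mul_le_mul_of_nonneg_left b2 (by positivity))
  have h4 : T * s ^ 2 * (Q * (a / b * σ)) = 1 := by
    rw [hTd, hs]
    field_simp
  have h5 : a ^ 2 * ((M : ℝ) ^ 2 * Q / v) =
      T * (a * b * ((M : ℝ) ^ 2 * Q ^ 2 * K ^ 2 * σ / v)) := by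
    rw [hTd]
    field_simp
  have h6 : a ^ 2 * s ^ 2 = K ^ 2 * b ^ 2 := by
    rw [hs]
    field_simp
  have h7 : T * (2 * s * b ^ 2 * W) ≤ T * (a * b * ((M : ℝ) ^ 2 * Q ^ 2 * K ^ 2 * σ / v) +
      K ^ 2 * b ^ 2 * (4 * Q * (σ * a1 μ) + C' / v * (a / b * σ)) + b ^ 2 / 2 * σ * (A + 1)) := by
    rw [h4] at h3
    have h8 : a ^ 2 * ((M : ℝ) ^ 2 * Q / v +
        T * s ^ 2 * (4 * Q * (σ * a1 μ) + C' / v * (a / b * σ))) =
        a ^ 2 * ((M : ℝ) ^ 2 * Q / v) +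
        T * (a ^ 2 * s ^ 2) * (4 * Q * (σ * a1 μ) + C' / v * (a / b * σ)) := by ring
    rw [h8, h5, h6] at h2
    calc T * (2 * s * b ^ 2 * W) = T * (2 * s * b ^ 2) * W := by ring
      _ ≤ _ := h1
      _ ≤ _ := add_le_add h2 h3
      _ = _ := by ring
  have h8 := le_of_mul_le_mul_left h7 hT0
  have h9 : 4 * Q * K * a1 μ ≤ δ := by
    have := mul_le_mul_of_nonneg_left ha (show 0 ≤ 4 * Q * K by positivity)
    rwa [mul_div_cancel₀] at this
    positivity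
  -- final comparison
  have h10 : 2 * s * b ^ 2 * W ≤ 2 * s * b ^ 2 * (δ * σ * a / b +
      K / 2 * ((M : ℝ) ^ 2 * Q ^ 2 + C') * σ * U / (v * l)) := by
    refine h8.trans ?_
    have e1 : 2 * s * b ^ 2 * (δ * σ * a / b +
      K / 2 * ((M : ℝ) ^ 2 * Q ^ 2 + C') * σ * U / (v * l)) =
      2 * (K * δ) * b ^ 2 * σ + K ^ 2 * ((M : ℝ) ^ 2 * Q ^ 2 + C') * a * b * σ / v := by
      rw [hs, haU, hbl]
      field_simp
    have e2 : a * b * ((M : ℝ) ^ 2 * Q ^ 2 * K ^ 2 * σ / v) +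
      K ^ 2 * b ^ 2 * (4 * Q * (σ * a1 μ) + C' / v * (a / b * σ)) + b ^ 2 / 2 * σ * (A + 1) =
      K * b ^ 2 * σ * (4 * Q * K * a1 μ) + b ^ 2 * σ * ((A + 1) / 2) +
        K ^ 2 * ((M : ℝ) ^ 2 * Q ^ 2 + C') * a * b * σ / v := by
      field_simp
      ring
    rw [e1, e2, ← hKδ]
    have h11 : K * b ^ 2 * σ * (4 * Q * K * a1 μ) ≤ K * b ^ 2 * σ * δ :=
      mul_le_mul_of_nonneg_left h9 (by positivity)
    have h12 : K * b ^ 2 * σ * δ + b ^ 2 * σ * (K * δ) = 2 * (K * δ) * b ^ 2 * σ := by ring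
    linarith
  exact le_of_mul_le_mul_left h10 (by positivity)

end Pool.Agent.N482.QLLONG
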