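import Pool.Agent.N657.QL.Stm3
import Pool.Agent.N8.QL_SQ

/-!
# Project QL: the bound without the condition `Cub` (proof copied from the imported file)
-/

set_option autoImplicit false

namespace Pool.Agent.N8.QLSQ

open MeasureTheory Filter Topology
open Pool.Agent.N657.QR Pool.Agent.N657.QL

theorem mainN (hT : S_TPB) : S_SQN := by
  refine ⟨8, by norm_num, ?_⟩
  intro d L _ U l μ f hU hl hE hf
  have := hE.prob
  obtain ⟨m1, m2, m3, m4, m5, m6, m7, m8⟩ := hT.mem f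
  obtain ⟨v, hv⟩ : ∃ v : ℝ, v = (Fintype.card (Fin d → ZMod L) : ℝ) := ⟨_, rfl⟩
  have hv0 : 0 < v := by rw [hv]; exact_mod_cast Fintype.card_pos
  obtain ⟨σ, hσ⟩ : ∃ σ : ℝ, σ = ∑ x, f x ^ 2 := ⟨_, rfl⟩
  have hσ0 : 0 ≤ σ := by rw [hσ]; exact Finset.sum_nonneg fun _ _ => sq_nonneg _
  obtain ⟨a, ha⟩ : ∃ a : ℝ, a = Real.sqrt U := ⟨_, rfl⟩
  obtain ⟨b, hb⟩ : ∃ b : ℝ, b = Real.sqrt l := ⟨_, rfl⟩
  have ha0 : 0 < a := by rw [ha]; exact Real.sqrt_pos.2 hU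
  have hb0 : 0 < b := by rw [hb]; exact Real.sqrt_pos.2 hl
  have haU : U = a ^ 2 := by rw [ha]; exact (Real.sq_sqrt hU.le).symm
  have hbl : l = b ^ 2 := by rw [hb]; exact (Real.sq_sqrt hl.le).symm
  have hA0 : 0 ≤ a2 μ := integral_nonneg fun θ => sq_nonneg _
  obtain ⟨A, hA⟩ : ∃ A : ℝ, A = a2 μ := ⟨_, rfl⟩
  obtain ⟨W, hW⟩ : ∃ W : ℝ, W = ∫ θ, Xf f θ ^ 2 * (1 - r2 θ) ^ 2 ∂μ := ⟨_, rfl⟩
  rw [← hW, ← hσ, ← ha, ← hb, ← hA, ← hv]
  rw [← hA] at hA0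
  rcases hσ0.eq_or_lt with hσz | hσp
  · have hf0 : ∀ x, f x = 0 := by
      intro x
      rw [hσ] at hσz
      have h1 := (Finset.sum_eq_zero_iff_of_nonneg (fun x _ => sq_nonneg (f x))).1 hσz.symm x
        (Finset.mem_univ x)
      exact pow_eq_zero_iff (two_ne_zero) |>.1 h1
    have h0 : ∀ θ : (Fin d → ZMod L) → ℝ, Xf f θ ^ 2 * (1 - r2 θ) ^ 2 = 0 := by
      intro θ
      have : Xf f θ = 0 := by simp [Xf, hf0]
      rw [this]; ring
    have hW0 : W = 0 := by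
      rw [hW]
      simp only [h0, integral_zero]
    rw [hW0, ← hσz]
    simp
  have hN : ∫ θ, Nf f θ ∂μ ≤ a / b * σ := by
    rw [ha, hb, hσ]
    exact hE.irb l f hl hf
  have hiN : Integrable (fun θ => Nf f θ) μ := integ hT m6
  have g0 : ∫ θ, gr (1 - r2) θ ∂μ ≤ 4 / v := by
    have h1 : ∫ θ, gr (1 - r2) θ ∂μ ≤ ∫ _θ : (Fin d → ZMod L) → ℝ, 4 / v ∂μ :=
      integral_mono_of_nonneg (Eventually.of_forall fun θ =>
        Finset.sum_nonneg fun _ _ => sq_nonneg _) (integrable_const _)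
        (Eventually.of_forall fun θ => by rw [hv]; exact grP_bd hT θ)
    simpa using h1
  have hP2 : Integrable (fun θ : (Fin d → ZMod L) → ℝ => (1 - r2 θ) ^ 2) μ :=
    integ hT (pow_mem (P_mem hT) 2)
  have g2 : ∫ θ, gr ((1 - r2) * Xf f) θ ∂μ ≤ 2 * σ * A + 8 / v * (a / b * σ) := by
    have hi1 : Integrable (fun θ : (Fin d → ZMod L) → ℝ => 2 * σ * (1 - r2 θ) ^ 2) μ :=
      hP2.const_mul _
    have hi2 : Integrable (fun θ => 8 / v * Nf f θ) μ := hiN.const_mul _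
    have h1 : ∫ θ, gr ((1 - r2) * Xf f) θ ∂μ ≤
        ∫ θ, (2 * σ * (1 - r2 θ) ^ 2 + 8 / v * Nf f θ) ∂μ :=
      integral_mono_of_nonneg (Eventually.of_forall fun θ =>
        Finset.sum_nonneg fun _ _ => sq_nonneg _) (hi1.add hi2)
        (Eventually.of_forall fun θ => by rw [hv, hσ]; exact grPX_bd hT f θ)
    rw [integral_add hi1 hi2, integral_const_mul, integral_const_mul] at h1
    have e : ∫ θ, (1 - r2 θ) ^ 2 ∂μ = A := by rw [hA]; rfl
    rw [e] at h1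
    exact h1.trans (add_le_add le_rfl (mul_le_mul_of_nonneg_left hN (by positivity)))
  -- parameters
  obtain ⟨T, hTd⟩ : ∃ T : ℝ, T = a / (b * σ) := ⟨_, rfl⟩
  obtain ⟨s, hs⟩ : ∃ s : ℝ, s = b / a := ⟨_, rfl⟩
  have hs0 : 0 < s := by rw [hs]; positivity
  have hT0 : 0 < T := by rw [hTd]; positivity
  have ht2 : Real.sqrt T * Real.sqrt T = T := Real.mul_self_sqrt hT0.le
  have h1 := ineq hT hE hf (Real.sqrt T) (Real.sqrt T * s)
  have e : ∫ θ, (1 - r2 θ) ^ 2 ∂μ = A := by rw [hA]; rfl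
  rw [← hW, ← hσ, e] at h1
  have q1 : 2 * Real.sqrt T * l * (Real.sqrt T * s) = T * (2 * s * b ^ 2) := by
    rw [hbl]
    calc _ = (Real.sqrt T * Real.sqrt T) * (2 * s * b ^ 2) := by ring
      _ = _ := by rw [ht2]
  have q2 : (Real.sqrt T * s) ^ 2 = T * s ^ 2 := by
    rw [mul_pow, pow_two (Real.sqrt T), ht2]
  have q3 : Real.sqrt T ^ 2 = T := by rw [pow_two, ht2]
  rw [q1, q2, q3, haU, hbl] at h1
  have h2 : a ^ 2 * ((∫ θ, gr (1 - r2) θ ∂μ) + T * s ^ 2 * ∫ θ, gr ((1 - r2) * Xf f) θ ∂μ) ≤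
      a ^ 2 * (4 / v + T * s ^ 2 * (2 * σ * A + 8 / v * (a / b * σ))) := by
    apply mul_le_mul_of_nonneg_left _ (sq_nonneg _)
    exact add_le_add g0 (mul_le_mul_of_nonneg_left g2 (by positivity))
  have h3 := h1.trans (add_le_add h2 le_rfl)
  have k1 : T * (2 * s * b ^ 2) * W = 2 * (b ^ 2 / σ * W) := by
    rw [hTd, hs]
    field_simp
  have k2 : a ^ 2 * (4 / v + T * s ^ 2 * (2 * σ * A + 8 / v * (a / b * σ))) =
      12 * (a ^ 2 / v) + 2 * (a * b * A) := by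
    rw [hTd, hs]
    field_simp
    ring
  have k3 : T * b ^ 2 / 2 * σ * (A + T * s ^ 2 * W) = a * b * A / 2 + b ^ 2 / σ * W / 2 := by
    rw [hTd, hs]
    field_simp
  rw [k1, k2, k3] at h3
  have h4 : b ^ 2 / σ * W ≤ 8 * (a ^ 2 / v) + 8 * (a * b * A) := by
    have : 0 ≤ a * b * A := by positivity
    linarith
  have h5 : W = σ / b ^ 2 * (b ^ 2 / σ * W) := by field_simp
  rw [h5]
  refine (mul_le_mul_of_nonneg_left h4 (by positivity)).trans (le_of_eq ?_)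
  rw [haU, hbl]
  field_simp
  ring

end Pool.Agent.N8.QLSQ
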