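import Pool.Agent.N657.QL.Stm3
import Pool.Agent.N691.QL_TRANS

/-!
# Project QL: the bound without the condition `Cub` (proof copied from the imported file)
-/

set_option autoImplicit false

namespace Pool.Agent.N691.QLT

open MeasureTheory Filter Topology
open Pool.Agent.N657.QR Pool.Agent.N657.QL

theorem mainN (hT : S_TPB) (hR : S_ROTA) (hQ : S_RATIO) : Pool.Agent.N657.QL.S_TRANSN := by
  intro M δ hδ
  obtain ⟨e, he, he4, heδ⟩ : ∃ e : ℝ, 0 < e ∧ e ≤ 1 / 4 ∧ 4 * e ≤ δ :=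
    ⟨min δ 1 / 4, by positivity, by linarith [min_le_right δ 1], by linarith [min_le_left δ 1]⟩
  have hC'0 : (0 : ℝ) ≤ (1 + e) * (1 + 1 / e) * 4 ^ M + (1 + 1 / e) * ((M : ℝ) ^ 2 * 4 ^ M) := by
    positivity
  refine ⟨((1 + e) * (1 + 1 / e) * 4 ^ M + (1 + 1 / e) * ((M : ℝ) ^ 2 * 4 ^ M)) +
    (M : ℝ) ^ 2 * (4 ^ M) ^ 2 / e, by positivity, ?_⟩
  intro d L _ U l μ f hU hl hE hf
  have := hE.prob
  have hAM : 0 ≤ AM M 1 := by unfold AM; positivity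
  have hσ0 : 0 ≤ ∑ x, f x ^ 2 := by positivity
  have hnn : 0 ≤ (1 + δ) * AM M 1 * (∑ x, f x ^ 2) * Real.sqrt U / (Real.sqrt 2 * Real.sqrt l) +
        (((1 + e) * (1 + 1 / e) * 4 ^ M + (1 + 1 / e) * ((M : ℝ) ^ 2 * 4 ^ M)) +
    (M : ℝ) ^ 2 * (4 ^ M) ^ 2 / e) * (∑ x, f x ^ 2) * U /
          ((Fintype.card (Fin d → ZMod L) : ℝ) * l) := by positivity
  rcases Nat.eq_zero_or_pos M with hM | hM
  · subst hM
    have h0 : ∀ θ, cM 0 (r2 θ) * Tf f θ ^ 2 = 0 := fun θ => by simp [cM]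
    simp only [h0]
    simpa using hnn
  rcases hσ0.eq_or_lt with hσ | hσ
  · have hf0 : ∀ x, f x = 0 := by
      intro x
      have := (Finset.sum_eq_zero_iff_of_nonneg (fun x _ => sq_nonneg (f x))).1 hσ.symm x
        (Finset.mem_univ x)
      exact pow_eq_zero_iff (two_ne_zero) |>.1 this
    have h0 : ∀ θ, cM M (r2 θ) * Tf f θ ^ 2 = 0 := fun θ => by simp [Tf, Xf, Yf, hf0]
    simp only [h0]
    simpa using hnn
  obtain ⟨-, hq, -⟩ := hQ.2 M hM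
  obtain ⟨hX, hY, hmx, hmy, hr2, hNf, hLf, hTf⟩ := hT.mem f
  have hP : ((1 + my) ^ M : ((Fin d → ZMod L) → ℝ) → ℝ) ∈ TP (Fin d → ZMod L) :=
    pow_mem (add_mem (one_mem _) hmy) M
  have hPT : ((1 + my) ^ M * Tf f : ((Fin d → ZMod L) → ℝ) → ℝ) ∈ TP (Fin d → ZMod L) :=
    mul_mem hP hTf
  have hn : (0 : ℝ) < (Fintype.card (Fin d → ZMod L) : ℝ) := by exact_mod_cast Fintype.card_pos
  have hA1 : 1 ≤ AM M 1 := (hq 1 zero_le_one le_rfl).1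
  have hAr : ∀ θ : (Fin d → ZMod L) → ℝ, AM M (r2 θ) ≤ AM M 1 := fun θ =>
    (hq _ (hT.bounds f θ).1 (hT.bounds f θ).2.1).2.1
  obtain ⟨-, hR2, -, hR4⟩ := hR d L U μ hE M f
  -- the first integrals
  have hPP : ∀ θ : (Fin d → ZMod L) → ℝ, ((1 + my) ^ M : ((Fin d → ZMod L) → ℝ) → ℝ) θ ^ 2 =
      (1 + my θ) ^ (2 * M) := by
    intro θ
    rw [Pi.pow_apply, ← pow_mul, mul_comm M 2]
    rfl
  have hAMT : (fun θ : (Fin d → ZMod L) → ℝ => AM M (r2 θ)) ∈ TP (Fin d → ZMod L) := by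
    have : (fun θ : (Fin d → ZMod L) → ℝ => AM M (r2 θ)) =
        ∑ j ∈ Finset.range (M + 1),
          (((2 * M).choose (2 * j) : ℝ) * ((2 * j).choose j : ℝ) / 4 ^ j) • r2 ^ j := by
      funext θ
      simp [AM, Finset.sum_apply]
    rw [this]
    exact sum_mem fun j _ => Subalgebra.smul_mem _ (pow_mem hr2 j) _
  have iAM := intg hT hE _ hAMT
  have iN := intg hT hE _ hNf
  have hPM : (fun θ : (Fin d → ZMod L) → ℝ => (1 + my θ) ^ (2 * M)) ∈ TP (Fin d → ZMod L) :=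
    pow_mem (add_mem (one_mem _) hmy) (2 * M)
  have iPM := intg hT hE _ hPM
  have hPA : ∫ θ, (1 + my θ) ^ (2 * M) ∂μ ≤ AM M 1 := by
    rw [hR2]
    calc ∫ θ, AM M (r2 θ) ∂μ ≤ ∫ _θ, AM M 1 ∂μ :=
          integral_mono iAM (integrable_const _) hAr
      _ = AM M 1 := by simp
  have hIP : ∫ θ, ((1 + my) ^ M : ((Fin d → ZMod L) → ℝ) → ℝ) θ ^ 2 ∂μ ≤ AM M 1 := by
    simp only [hPP]; exact hPA
  have hP4 : ∀ θ : (Fin d → ZMod L) → ℝ, (1 + my θ) ^ (2 * M) ≤ 4 ^ M := by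
    intro θ
    obtain ⟨hb0, hb1⟩ := my_bd hT θ
    rw [pow_mul]
    apply pow_le_pow_left₀ (sq_nonneg _)
    nlinarith
  have hIQ : ∫ θ, ((1 + my) ^ M * Tf f : ((Fin d → ZMod L) → ℝ) → ℝ) θ ^ 2 ∂μ ≤
      4 ^ M * ∫ θ, Nf f θ ∂μ := by
    rw [← integral_const_mul]
    refine integral_mono (intg hT hE _ (pow_mem hPT 2)) (iN.const_mul _) fun θ => ?_
    show (((1 + my) ^ M : ((Fin d → ZMod L) → ℝ) → ℝ) θ * Tf f θ) ^ 2 ≤ 4 ^ M * Nf f θ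
    rw [mul_pow, hPP]
    exact mul_le_mul (hP4 θ) (T_le hT f θ) (sq_nonneg _) (by positivity)
  have hGP : ∫ θ, gr ((1 + my) ^ M) θ ∂μ ≤
      (M : ℝ) ^ 2 * 4 ^ M / (Fintype.card (Fin d → ZMod L) : ℝ) := by
    calc ∫ θ, gr ((1 + my) ^ M) θ ∂μ ≤
        ∫ _θ, (M : ℝ) ^ 2 * 4 ^ M / (Fintype.card (Fin d → ZMod L) : ℝ) ∂μ :=
          integral_mono (intg hT hE _ (hT.grmem _ hP)) (integrable_const _) (grP_le hT M)
      _ = (M : ℝ) ^ 2 * 4 ^ M / (Fintype.card (Fin d → ZMod L) : ℝ) := by simp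
  have hGQ : ∫ θ, gr ((1 + my) ^ M * Tf f) θ ∂μ ≤ (1 + e) ^ 2 * (∑ x, f x ^ 2) * AM M 1 +
      ((1 + e) * (1 + 1 / e) * 4 ^ M + (1 + 1 / e) * ((M : ℝ) ^ 2 * 4 ^ M)) *
        ((∫ θ, Nf f θ ∂μ) / (Fintype.card (Fin d → ZMod L) : ℝ)) := by
    have h1 := integral_mono (intg hT hE _ (hT.grmem _ hPT))
      ((iPM.const_mul ((1 + e) ^ 2 * (∑ x, f x ^ 2))).add
        ((iN.div_const (Fintype.card (Fin d → ZMod L) : ℝ)).const_mul
          ((1 + e) * (1 + 1 / e) * 4 ^ M + (1 + 1 / e) * ((M : ℝ) ^ 2 * 4 ^ M))))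
      (fun θ => grQ_le hT M f e he θ)
    refine le_trans h1 ?_
    rw [integral_add' (iPM.const_mul _) ((iN.div_const _).const_mul _), integral_const_mul,
      integral_const_mul, integral_div]
    gcongr
  have hI := hE.irb l f hl hf
  have hsU : 0 < Real.sqrt U := Real.sqrt_pos.2 hU
  have hsl : 0 < Real.sqrt l := Real.sqrt_pos.2 hl
  have hs2 : 0 < Real.sqrt 2 := Real.sqrt_pos.2 (by norm_num)
  have hU2 : Real.sqrt U ^ 2 = U := Real.sq_sqrt hU.le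
  have hl2 : Real.sqrt l ^ 2 = l := Real.sq_sqrt hl.le
  have h22 : Real.sqrt 2 ^ 2 = 2 := Real.sq_sqrt (by norm_num)
  have ht0 : 0 ≤ 2 * e * Real.sqrt U / (Real.sqrt l * (∑ x, f x ^ 2) * 4 ^ M) := by positivity
  have hk := key hT hE (Real.sqrt (2 * e * Real.sqrt U / (Real.sqrt l * (∑ x, f x ^ 2) * 4 ^ M))) l
    (-(Real.sqrt (2 * e * Real.sqrt U / (Real.sqrt l * (∑ x, f x ^ 2) * 4 ^ M)) *
      (Real.sqrt l / (Real.sqrt 2 * Real.sqrt U)))) f hf _ _ hP hPT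
  have hW : ∫ θ, Xf f θ * (((1 + my) ^ M : ((Fin d → ZMod L) → ℝ) → ℝ) θ *
      ((1 + my) ^ M * Tf f : ((Fin d → ZMod L) → ℝ) → ℝ) θ) ∂μ =
      -∫ θ, cM M (r2 θ) * Tf f θ ^ 2 ∂μ := by
    rw [← hR4]
    refine integral_congr_ae (Filter.Eventually.of_forall fun θ => ?_)
    show Xf f θ * (((1 + my) ^ M : ((Fin d → ZMod L) → ℝ) → ℝ) θ *
      (((1 + my) ^ M : ((Fin d → ZMod L) → ℝ) → ℝ) θ * Tf f θ)) =
      Xf f θ * Tf f θ * (1 + my θ) ^ (2 * M)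
    rw [← hPP]
    ring
  rw [hW] at hk
  have hts : Real.sqrt (2 * e * Real.sqrt U / (Real.sqrt l * (∑ x, f x ^ 2) * 4 ^ M)) ^ 2 =
      2 * e * Real.sqrt U / (Real.sqrt l * (∑ x, f x ^ 2) * 4 ^ M) := Real.sq_sqrt ht0
  have hfin := fin_alg (AM M 1) (∑ x, f x ^ 2) (Real.sqrt U) (Real.sqrt l) (Real.sqrt 2)
    (Fintype.card (Fin d → ZMod L) : ℝ) e δ (4 ^ M) ((M : ℝ) ^ 2)
    ((1 + e) * (1 + 1 / e) * 4 ^ M + (1 + 1 / e) * ((M : ℝ) ^ 2 * 4 ^ M))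
    (Real.sqrt l / (Real.sqrt 2 * Real.sqrt U))
    (2 * e * Real.sqrt U / (Real.sqrt l * (∑ x, f x ^ 2) * 4 ^ M))
    (∫ θ, Nf f θ ∂μ) (∫ θ, cM M (r2 θ) * Tf f θ ^ 2 ∂μ) _ _ _ _ hsU hsl hs2 h22 hσ hn he he4 heδ
    hA1 (by positivity) (by positivity) hC'0 rfl rfl hI hGP hGQ hIP hIQ ?_
  · rw [hU2, hl2] at hfin
    exact hfin
  · rw [hU2, hl2]
    rw [← hts]
    refine le_trans (le_of_eq ?_) (le_trans hk (le_of_eq ?_))
    · ring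
    · ring

end Pool.Agent.N691.QLT
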