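import Pool.Agent.N657.QL.All
import Pool.Agent.N657.QL.TransN
import Pool.Agent.N657.QL.LongN
import Pool.Agent.N657.QL.SqN
import Pool.Agent.N252.QL_UPK
import Pool.Agent.N252.QL_INV
import Pool.Agent.N252.QL_UNM
import Pool.Agent.N252.QL_SPC
import Pool.Agent.N252.QL_MOD

/-!
# Project QL, third part: all parts together
-/

namespace Pool.Agent.N657.QL

open Pool.Agent.N657.QR

theorem wg_zero {d L : ℕ} [NeZero L] : (wg 0 : (Fin d → ZMod L) → (Fin d → ZMod L) → ℝ) = nnw 1 := by
  funext x y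
  simp [wg]

theorem m0 : S_M0 := by
  intro d L _ U l Ψ g hU hl hΨ hg
  have h := m0g d L U 0 l Ψ g hU le_rfl hl (by rw [wg_zero]; exact hΨ) hg
  simpa using h

theorem transn : S_TRANSN := Pool.Agent.N691.QLT.mainN tpb rota ratio
theorem longn : S_LONGN := Pool.Agent.N482.QLLONG.mainN tpb rota ratio
theorem sqn : S_SQN := Pool.Agent.N8.QLSQ.mainN tpb
theorem upk : S_UPK := Pool.Agent.N252.QLUK.main tpb sumq ratio transn longn sqn
theorem inv_ : S_INV := Pool.Agent.N252.QLI.main bas lb eig sym min_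
theorem unm : S_UNM := Pool.Agent.N252.QLUM.main bas sym eig
theorem spc : S_SPC := Pool.Agent.N252.QLSP.main bas
theorem mod_ : S_MOD := Pool.Agent.N252.QLMD.main bas neu env upk m0 unm inv_

end Pool.Agent.N657.QL
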