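import Pool.Agent.N657.QR.Stm

/-!
# Project QL: the depletion of the condensate of quantum rotors at small `U`, definitions
-/

namespace Pool.Agent.N657.QL

open MeasureTheory Filter Topology
open Pool.Agent.N657.QR

section General

variable {V : Type} [Fintype V] [DecidableEq V]

/-- Trigonometric polynomials in the angles `θ_x`. -/
def TP (V : Type) [Fintype V] [DecidableEq V] : Subalgebra ℝ ((V → ℝ) → ℝ) :=
  Algebra.adjoin ℝ {R | ∃ x : V, R = (fun θ => Real.cos (θ x)) ∨ R = fun θ => Real.sin (θ x)}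

/-- Partial derivative. -/
noncomputable def pd (x : V) (R : (V → ℝ) → ℝ) (θ : V → ℝ) : ℝ :=
  deriv (fun s : ℝ => R (θ + s • Pi.single x 1)) 0

/-- `∑ (∂_x R)²`. -/
noncomputable def gr (R : (V → ℝ) → ℝ) (θ : V → ℝ) : ℝ := ∑ x, pd x R θ ^ 2

/-- `∑ f_x cos θ_x`. -/
noncomputable def Xf (f : V → ℝ) (θ : V → ℝ) : ℝ := ∑ x, f x * Real.cos (θ x)

/-- `∑ f_x sin θ_x`. -/
noncomputable def Yf (f : V → ℝ) (θ : V → ℝ) : ℝ := ∑ x, f x * Real.sin (θ x)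

/-- Mean of `cos θ_x`. -/
noncomputable def mx (θ : V → ℝ) : ℝ := Xf (fun _ => 1) θ / (Fintype.card V : ℝ)

/-- Mean of `sin θ_x`. -/
noncomputable def my (θ : V → ℝ) : ℝ := Yf (fun _ => 1) θ / (Fintype.card V : ℝ)

/-- The condensate fraction of the configuration `θ`, `|V⁻¹ ∑ e^{iθ_x}|²`. -/
noncomputable def r2 (θ : V → ℝ) : ℝ := mx θ ^ 2 + my θ ^ 2

/-- `|∑ f_x e^{iθ_x}|²`. -/
noncomputable def Nf (f : V → ℝ) (θ : V → ℝ) : ℝ := Xf f θ ^ 2 + Yf f θ ^ 2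

/-- Longitudinal component times `|m|`. -/
noncomputable def Lf (f : V → ℝ) (θ : V → ℝ) : ℝ := mx θ * Xf f θ + my θ * Yf f θ

/-- Transverse component times `|m|`. -/
noncomputable def Tf (f : V → ℝ) (θ : V → ℝ) : ℝ := mx θ * Yf f θ - my θ * Xf f θ

/-- `∑_{j ≤ M} C(2M,2j) C(2j,j) 4^{-j} u^j`, the mean of `(1 + ρ cos α)^{2M}` over `α`, `u = ρ²`. -/
noncomputable def AM (M : ℕ) (u : ℝ) : ℝ :=
  ∑ j ∈ Finset.range (M + 1), ((2 * M).choose (2 * j) : ℝ) * ((2 * j).choose j : ℝ) / 4 ^ j * u ^ j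

/-- `∑_{j < M} C(2M,2j+1) C(2j+2,j+1) 4^{-(j+1)} u^j`; `u * cM M u` is the mean of
`ρ cos α (1 + ρ cos α)^{2M}` over `α`, `u = ρ²`. -/
noncomputable def cM (M : ℕ) (u : ℝ) : ℝ :=
  ∑ j ∈ Finset.range M,
    ((2 * M).choose (2 * j + 1) : ℝ) * ((2 * j + 2).choose (j + 1) : ℝ) / 4 ^ (j + 1) * u ^ j

end General

section Torus

variable {d L : ℕ} [NeZero L]

/-- `∑_a f (x - a) = 0` and `∑_a f (x - a) f (y - a) f (z - a) = 0`. -/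
def Cub (f : (Fin d → ZMod L) → ℝ) : Prop :=
  (∀ x, ∑ a, f (x - a) = 0) ∧ ∀ x y z, ∑ a, f (x - a) * f (y - a) * f (z - a) = 0

/-- Properties of the distribution `μ` of the angles in the neutral ground state. -/
structure Env (U : ℝ) (μ : Measure ((Fin d → ZMod L) → ℝ)) : Prop where
  prob : IsProbabilityMeasure μ
  rot : ∀ R ∈ TP (Fin d → ZMod L), ∀ φ : ℝ, ∫ θ, R (fun x => θ x + φ) ∂μ = ∫ θ, R θ ∂μ
  refl : ∀ R ∈ TP (Fin d → ZMod L), ∫ θ, R (fun x => -θ x) ∂μ = ∫ θ, R θ ∂μ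
  trans : ∀ R ∈ TP (Fin d → ZMod L), ∀ a : Fin d → ZMod L,
    ∫ θ, R (fun x => θ (x + a)) ∂μ = ∫ θ, R θ ∂μ
  irb : ∀ (l : ℝ) (f : (Fin d → ZMod L) → ℝ), 0 < l → (∀ x, lap f x = l * f x) →
    ∫ θ, Nf f θ ∂μ ≤ Real.sqrt U / Real.sqrt l * ∑ x, f x ^ 2
  star : ∀ R ∈ TP (Fin d → ZMod L), ∀ (t l : ℝ) (f : (Fin d → ZMod L) → ℝ),
    (∀ x, lap f x = l * f x) →
    t * l * ∫ θ, Xf f θ * R θ ^ 2 ∂μ ≤
      U * (∫ θ, gr R θ ∂μ) + t ^ 2 * l / 2 * (∑ x, f x ^ 2) * ∫ θ, R θ ^ 2 ∂μ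

/-- `∫ (1 - r2)`, `∫ (1 - r2)²`. -/
noncomputable def a1 (μ : Measure ((Fin d → ZMod L) → ℝ)) : ℝ := ∫ θ, (1 - r2 θ) ∂μ

/-- `∫ (1 - r2)²`. -/
noncomputable def a2 (μ : Measure ((Fin d → ZMod L) → ℝ)) : ℝ := ∫ θ, (1 - r2 θ) ^ 2 ∂μ

/-- `L^{-d} ∑_{k ≠ 0} λ_k^{-1/2}`. -/
noncomputable def IL (d L : ℕ) [NeZero L] : ℝ :=
  (∑ k ∈ (Finset.univ : Finset (Fin d → ZMod L)).erase 0, 1 / Real.sqrt (lam k)) /
    (Fintype.card (Fin d → ZMod L) : ℝ)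

/-- Plane waves. -/
noncomputable def ck (k x : Fin d → ZMod L) : ℝ :=
  Real.cos (2 * Real.pi * (∑ i, ((k i).val : ℝ) * ((x i).val : ℝ)) / (L : ℝ))

/-- Plane waves. -/
noncomputable def sk (k x : Fin d → ZMod L) : ℝ :=
  Real.sin (2 * Real.pi * (∑ i, ((k i).val : ℝ) * ((x i).val : ℝ)) / (L : ℝ))

end Torus

/-- The infinite volume limit of `IL`. -/
noncomputable def Id (d : ℕ) : ℝ :=
  ∫ k in Set.Icc (0 : Fin d → ℝ) 1,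
    1 / Real.sqrt (∑ i : Fin d, (2 - 2 * Real.cos (2 * Real.pi * k i)))

end Pool.Agent.N657.QL
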