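import Pool.Agent.N657.QL.Stm

/-!
# Project QL: final assembly
-/

namespace Pool.Agent.N657.QL

open MeasureTheory Filter Topology
open Pool.Agent.N657.QR

theorem r2_eq {V : Type} [Fintype V] [DecidableEq V] (θ : V → ℝ) :
    r2 θ = (∑ x, ∑ y, Real.cos (θ x - θ y)) / (Fintype.card V : ℝ) ^ 2 := by
  unfold r2 mx my Xf Yf
  have h : ∀ x y, Real.cos (θ x - θ y)
      = Real.cos (θ x) * Real.cos (θ y) + Real.sin (θ x) * Real.sin (θ y) := fun x y =>
    Real.cos_sub _ _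
  simp only [h, one_mul, Finset.sum_add_distrib]
  rw [← Finset.sum_mul_sum, ← Finset.sum_mul_sum, div_pow, div_pow, ← add_div]
  ring

theorem a1_eq {d L : ℕ} [NeZero L] {U : ℝ} {μ : Measure ((Fin d → ZMod L) → ℝ)} (hμ : Env U μ)
    (Ψ : ((Fin d → ZMod L) → ℤ) → ℝ)
    (h : ∀ x y, cr x y Ψ = ∫ θ, Real.cos (θ x - θ y) ∂μ) :
    a1 μ = 1 - (∑ x, ∑ y, cr x y Ψ) / (Fintype.card (Fin d → ZMod L) : ℝ) ^ 2 := by
  have := hμ.prob
  have hint : ∀ x y : Fin d → ZMod L, Integrable (fun θ => Real.cos (θ x - θ y)) μ := by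
    intro x y
    refine Integrable.of_bound (C := 1) ?_ ?_
    · exact (by fun_prop : Continuous fun θ : (Fin d → ZMod L) → ℝ =>
        Real.cos (θ x - θ y)).aestronglyMeasurable
    · exact Filter.Eventually.of_forall fun θ => by
        simpa using Real.abs_cos_le_one _
  have hr : Integrable (fun θ : (Fin d → ZMod L) → ℝ => r2 θ) μ := by
    have e : (fun θ : (Fin d → ZMod L) → ℝ => r2 θ) = fun θ =>
        (∑ x, ∑ y, Real.cos (θ x - θ y)) / (Fintype.card (Fin d → ZMod L) : ℝ) ^ 2 :=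
      funext r2_eq
    rw [e]
    exact (integrable_finset_sum _ fun x _ => integrable_finset_sum _ fun y _ =>
      hint x y).div_const _
  unfold a1
  rw [integral_sub (integrable_const _) hr]
  simp only [integral_const, probReal_univ, smul_eq_mul, mul_one]
  congr 1
  simp_rw [r2_eq, h]
  rw [integral_div, integral_finset_sum _ fun x _ => integrable_finset_sum _ fun y _ => hint x y]
  congr 1
  exact Finset.sum_congr rfl fun x _ => integral_finset_sum _ fun y _ => hint x y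

/-- The main theorem, from the parts. -/
theorem main_of (hX : S_EX) (hCmp : S_CMP) (hCpx : S_CPX) (hCon : S_CON) (hEnv : S_ENV)
    (hUp : S_UP) (hLow : S_LOW) (hRie : S_RIE) (d : ℕ) (hd : 2 ≤ d) :
    ∀ ε : ℝ, 0 < ε → ∃ U₀ : ℝ, 0 < U₀ ∧ ∀ U : ℝ, 0 < U → U ≤ U₀ → ∃ L₀ : ℕ,
      ∀ (L : ℕ) [NeZero L], L₀ ≤ L → Even L →
        (∃ ψ, IsGroundState (U • (1 : Matrix (Fin d → ZMod L) (Fin d → ZMod L) ℝ)) (nnw 1)
          0 0 ψ) ∧
        (∀ ψ, IsGroundState (U • (1 : Matrix (Fin d → ZMod L) (Fin d → ZMod L) ℝ)) (nnw 1)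
            0 0 ψ →
          |(1 - condensate ψ) - Id d / Real.sqrt 2 * Real.sqrt U| ≤ ε * Real.sqrt U) ∧
        ∀ (K : Matrix (Fin d → ZMod L) (Fin d → ZMod L) ℝ) (ν : (Fin d → ZMod L) → ℝ)
          (w : (Fin d → ZMod L) → (Fin d → ZMod L) → ℝ),
          K.PosDef → (U • (1 : Matrix (Fin d → ZMod L) (Fin d → ZMod L) ℝ) - K).PosSemidef →
          (∀ x y, 0 ≤ w x y) → (∀ x i, 1 ≤ w x (x + ee i)) → ∀ N : ℤ,
            (∃ ψ, IsGroundState K w ν N ψ) ∧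
            ∀ ψ, IsGroundState K w ν N ψ →
              1 - condensate ψ ≤ (Id d / Real.sqrt 2 + ε) * Real.sqrt U := by
  intro ε hε
  have h2 : (0 : ℝ) < Real.sqrt 2 := Real.sqrt_pos.2 (by norm_num)
  obtain ⟨U₁, hU₁, h1⟩ := hUp d hd (ε / 2) (by positivity)
  obtain ⟨U₂, hU₂, h2'⟩ := hLow d hd (ε / 2) (by positivity)
  refine ⟨min U₁ U₂, lt_min hU₁ hU₂, fun U hU hUU => ?_⟩
  obtain ⟨L₁, hL₁⟩ := h1 U hU (hUU.trans (min_le_left _ _))
  obtain ⟨L₂, hL₂⟩ := h2' U hU (hUU.trans (min_le_right _ _))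
  have hs : 0 < Real.sqrt U := Real.sqrt_pos.2 hU
  obtain ⟨n₀, hn₀⟩ := (Metric.tendsto_atTop.1 (hRie d hd)) (ε / 2 * Real.sqrt 2) (by positivity)
  refine ⟨max (max L₁ L₂) (max (n₀ + 1) 2), fun L _ hL hLe => ?_⟩
  have hL1 : L₁ ≤ L := (le_max_left _ _).trans ((le_max_left _ _).trans hL)
  have hL2 : L₂ ≤ L := (le_max_right _ _).trans ((le_max_left _ _).trans hL)
  have hL3 : n₀ + 1 ≤ L := (le_max_left _ _).trans ((le_max_right _ _).trans hL)
  have hL4 : 2 ≤ L := (le_max_right _ _).trans ((le_max_right _ _).trans hL)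
  have hIL : |IL d L - Id d| < ε / 2 * Real.sqrt 2 := by
    obtain ⟨n, rfl⟩ : ∃ n, L = n + 1 := ⟨L - 1, by omega⟩
    have := hn₀ n (by omega)
    rwa [Real.dist_eq] at this
  have hIL' : |IL d L / Real.sqrt 2 - Id d / Real.sqrt 2| ≤ ε / 2 := by
    rw [← sub_div, abs_div, abs_of_pos h2, div_le_iff₀ h2]
    exact hIL.le
  have hnn0 : ∀ x y : Fin d → ZMod L, 0 ≤ nnw 1 x y := by
    intro x y
    unfold nnw
    refine Finset.sum_nonneg fun i _ => ?_
    split_ifs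
    · exact zero_le_one
    · exact le_rfl
  have hnn1 : ∀ (x : Fin d → ZMod L) (i : Fin d), 1 ≤ nnw 1 x (x + ee i) := by
    intro x i
    unfold nnw
    refine le_trans ?_ (Finset.single_le_sum (f := fun j : Fin d =>
      if x + ee i = x + ee j then (1 : ℝ) else 0) ?_ (Finset.mem_univ i))
    · simp
    · intro j _
      split_ifs
      · exact zero_le_one
      · exact le_rfl
  have hconnN : Conn (nnw 1 : (Fin d → ZMod L) → (Fin d → ZMod L) → ℝ) :=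
    hCon.1 _ (hCon.2.1 d L _ fun x i => lt_of_lt_of_le zero_lt_one (hnn1 x i))
  have hU1 : (U • (1 : Matrix (Fin d → ZMod L) (Fin d → ZMod L) ℝ)).PosDef :=
    Matrix.PosDef.one.smul hU
  obtain ⟨Ψ, hΨ⟩ := hX (U • (1 : Matrix (Fin d → ZMod L) (Fin d → ZMod L) ℝ)) (nnw 1) 0 0
    hU1 hnn0
  obtain ⟨μ, hμ, hcr⟩ := hEnv d L U Ψ hLe hU hΨ
  have ha := a1_eq hμ Ψ hcr
  have hup := hL₁ L hL1 μ hμ
  have hlow := hL₂ L hL2 hLe Ψ hΨ
  rw [ha] at hup
  have hcard : (0 : ℝ) < (Fintype.card (Fin d → ZMod L) : ℝ) := by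
    exact_mod_cast Fintype.card_pos
  have hi := abs_le.1 hIL'
  have hupper : 1 - (∑ x, ∑ y, cr x y Ψ) / (Fintype.card (Fin d → ZMod L) : ℝ) ^ 2 ≤
      (Id d / Real.sqrt 2 + ε) * Real.sqrt U := by
    refine hup.trans (mul_le_mul_of_nonneg_right ?_ hs.le)
    linarith [hi.2]
  obtain ⟨hgs, huniq⟩ := hCpx (U • (1 : Matrix (Fin d → ZMod L) (Fin d → ZMod L) ℝ)) (nnw 1) 0 0 Ψ
    hU1 hnn0 hconnN hΨ
  refine ⟨⟨_, hgs⟩, ?_, ?_⟩
  · intro ψ hψ
    obtain ⟨-, hc⟩ := huniq ψ hψ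
    have hcond : condensate ψ
        = (∑ x, ∑ y, cr x y Ψ) / (Fintype.card (Fin d → ZMod L) : ℝ) ^ 2 := by
      unfold condensate
      simp only [hc]
    rw [hcond, abs_le]
    constructor
    · have : (Id d / Real.sqrt 2 - ε) * Real.sqrt U ≤
          1 - (∑ x, ∑ y, cr x y Ψ) / (Fintype.card (Fin d → ZMod L) : ℝ) ^ 2 := by
        refine le_trans (mul_le_mul_of_nonneg_right ?_ hs.le) hlow
        linarith [hi.1]
      nlinarith [this]
    · nlinarith [hupper]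
  · intro K ν w hK hKU hw hw1 N
    have hconn : Conn w := hCon.1 w (hCon.2.1 d L w
      (fun x i => lt_of_lt_of_le zero_lt_one (hw1 x i)))
    have hnn : ∀ x y, nnw 1 x y ≤ w x y := hCon.2.2 d L 1 w hL4 hw hw1
    obtain ⟨Φ, hΦ⟩ := hX K w ν N hK hw
    obtain ⟨hgs', huniq'⟩ := hCpx K w ν N Φ hK hw hconn hΦ
    refine ⟨⟨_, hgs'⟩, fun ψ hψ => ?_⟩
    obtain ⟨-, hc⟩ := huniq' ψ hψ
    have h5 : ∀ x y, cr x y Ψ ≤ cr x y Φ := hCmp K _ w (nnw 1) ν N Φ Ψ hK hKU hnn0 hnn hconn hΦ hΨ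
    refine le_trans ?_ hupper
    unfold condensate
    simp only [hc]
    have : (∑ x, ∑ y, cr x y Ψ) / (Fintype.card (Fin d → ZMod L) : ℝ) ^ 2 ≤
        (∑ x, ∑ y, cr x y Φ) / (Fintype.card (Fin d → ZMod L) : ℝ) ^ 2 := by
      gcongr with x _ y _
      exact h5 x y
    linarith

end Pool.Agent.N657.QL
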