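import Pool.Agent.N657.QL.Stm

/-!
# Project QL, second part: the law of the depletion at all densities
-/

namespace Pool.Agent.N657.QL

open MeasureTheory Filter Topology
open Pool.Agent.N657.QR

/-- Nearest neighbour hopping plus the hopping `γ / V` between all sites. -/
noncomputable def wg {d L : ℕ} [NeZero L] (γ : ℝ) (x y : Fin d → ZMod L) : ℝ :=
  nnw 1 x y + γ / (Fintype.card (Fin d → ZMod L) : ℝ)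

/-- `L^{-d} ∑_{k ≠ 0} (λ_k + 2 γ)^{-1/2}`. -/
noncomputable def ILg (d L : ℕ) [NeZero L] (γ : ℝ) : ℝ :=
  (∑ k ∈ (Finset.univ : Finset (Fin d → ZMod L)).erase 0, 1 / Real.sqrt (lam k + 2 * γ)) /
    (Fintype.card (Fin d → ZMod L) : ℝ)

/-- SYMG: symmetries. -/
def S_SYMG : Prop :=
  ∀ (d L : ℕ) [NeZero L] (U γ : ℝ) (Ψ : ((Fin d → ZMod L) → ℤ) → ℝ), 0 < U → 0 ≤ γ →
    IsG (U • (1 : Matrix (Fin d → ZMod L) (Fin d → ZMod L) ℝ)) (wg γ) 0 0 Ψ →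
    (∀ n n', Ψ (-n) * Ψ (-n') = Ψ n * Ψ n') ∧
    ∀ (a : Fin d → ZMod L) n n', Ψ (fun x => n (x + a)) * Ψ (fun x => n' (x + a)) = Ψ n * Ψ n'

/-- M0G: number fluctuations. -/
def S_M0G : Prop :=
  ∀ (d L : ℕ) [NeZero L] (U γ l : ℝ) (Ψ : ((Fin d → ZMod L) → ℤ) → ℝ)
    (g : (Fin d → ZMod L) → ℝ), 0 < U → 0 ≤ γ → 0 < l →
    IsG (U • (1 : Matrix (Fin d → ZMod L) (Fin d → ZMod L) ℝ)) (wg γ) 0 0 Ψ →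
    (∀ x, lap g x = l * g x) →
    ∑' n, (∑ x, g x * (n x : ℝ)) ^ 2 * Ψ n ^ 2 ≤
      (∑ x, g x ^ 2) * Real.sqrt ((l + 2 * γ) / (8 * U))

/-- UNCG: the uncertainty relation. -/
def S_UNCG : Prop :=
  ∀ (d L : ℕ) [NeZero L] (U γ l : ℝ) (Ψ : ((Fin d → ZMod L) → ℤ) → ℝ)
    (g : (Fin d → ZMod L) → ℝ), 0 < U → 0 ≤ γ → 0 < l →
    IsG (U • (1 : Matrix (Fin d → ZMod L) (Fin d → ZMod L) ℝ)) (wg γ) 0 0 Ψ →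
    (∀ x, lap g x = l * g x) →
    ((∑ x, ∑ y, cr x y Ψ) / (Fintype.card (Fin d → ZMod L) : ℝ) ^ 2 * (∑ x, g x ^ 2) -
      (∑ x, ∑ y, g x * g y * cr x y Ψ) / (Fintype.card (Fin d → ZMod L) : ℝ)) ^ 2 ≤
      (∑ x, g x ^ 2) * Real.sqrt (2 * (l + 2 * γ) / U) * ∑ x, ∑ y, g x * g y * cr x y Ψ

/-- LOWG: lower bound of the depletion. -/
def S_LOWG : Prop :=
  ∀ d : ℕ, 2 ≤ d → ∀ ε γ : ℝ, 0 < ε → 0 ≤ γ → ∃ U₀ : ℝ, 0 < U₀ ∧ ∀ U : ℝ, 0 < U → U ≤ U₀ →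
    ∃ L₀ : ℕ, ∀ (L : ℕ) [NeZero L], L₀ ≤ L → Even L → ∀ Ψ : ((Fin d → ZMod L) → ℤ) → ℝ,
      IsG (U • (1 : Matrix (Fin d → ZMod L) (Fin d → ZMod L) ℝ)) (wg γ) 0 0 Ψ →
      (ILg d L γ / Real.sqrt 2 - ε) * Real.sqrt U ≤
        1 - (∑ x, ∑ y, cr x y Ψ) / (Fintype.card (Fin d → ZMod L) : ℝ) ^ 2

/-- GAM: the lattice sums are continuous at `γ = 0`, uniformly in `L`. -/
def S_GAM : Prop :=
  ∀ d : ℕ, 2 ≤ d → ∀ ε : ℝ, 0 < ε → ∃ γ : ℝ, 0 < γ ∧ ∀ (L : ℕ) [NeZero L],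
    IL d L ≤ ILg d L γ + ε

/-- DIF: differences of energies. -/
def S_DIF : Prop :=
  ∀ {V : Type} [Fintype V] [DecidableEq V] [Nonempty V] (U : ℝ) (w w' : V → V → ℝ) (ν : V → ℝ)
    (N : ℤ), 0 < U → (∀ x y, 0 ≤ w x y) → (∀ x y, 0 ≤ w' x y) →
    en (U • (1 : Matrix V V ℝ)) w ν N - en (U • (1 : Matrix V V ℝ)) w' ν N ≤
      en (U • (1 : Matrix V V ℝ)) w 0 0 - en (U • (1 : Matrix V V ℝ)) w' 0 0
        + U * (Fintype.card V : ℝ)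

/-- LALL: the lower bound of the depletion at all densities. -/
def S_LALL : Prop :=
  ∀ d : ℕ, 2 ≤ d → ∀ ε : ℝ, 0 < ε → ∃ U₀ : ℝ, 0 < U₀ ∧ ∀ U : ℝ, 0 < U → U ≤ U₀ →
    ∃ L₀ : ℕ, ∀ (L : ℕ) [NeZero L], L₀ ≤ L → Even L → ∀ (ν : (Fin d → ZMod L) → ℝ) (N : ℤ)
      (Φ : ((Fin d → ZMod L) → ℤ) → ℝ),
      IsG (U • (1 : Matrix (Fin d → ZMod L) (Fin d → ZMod L) ℝ)) (nnw 1) ν N Φ →
      (IL d L / Real.sqrt 2 - ε) * Real.sqrt U ≤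
        1 - (∑ x, ∑ y, cr x y Φ) / (Fintype.card (Fin d → ZMod L) : ℝ) ^ 2

end Pool.Agent.N657.QL
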