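import Pool.Agent.N657.QL.Fin
import Pool.Agent.N657.QL.Stm2

/-!
# Project QL: final assembly, all densities
-/

namespace Pool.Agent.N657.QL

open MeasureTheory Filter Topology
open Pool.Agent.N657.QR

/-- The main theorem at all densities, from the parts. -/
theorem main_all (hX : S_EX) (hCmp : S_CMP) (hCpx : S_CPX) (hCon : S_CON) (hEnv : S_ENV)
    (hUp : S_UP) (hLow : S_LALL) (hRie : S_RIE) (d : ℕ) (hd : 2 ≤ d) :
    ∀ ε : ℝ, 0 < ε → ∃ U₀ : ℝ, 0 < U₀ ∧ ∀ U : ℝ, 0 < U → U ≤ U₀ → ∃ L₀ : ℕ,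
      ∀ (L : ℕ) [NeZero L], L₀ ≤ L → Even L →
        (∀ (ν : (Fin d → ZMod L) → ℝ) (N : ℤ),
          (∃ ψ, IsGroundState (U • (1 : Matrix (Fin d → ZMod L) (Fin d → ZMod L) ℝ)) (nnw 1)
            ν N ψ) ∧
          (∀ ψ φ, IsGroundState (U • (1 : Matrix (Fin d → ZMod L) (Fin d → ZMod L) ℝ)) (nnw 1)
              ν N ψ →
            IsGroundState (U • (1 : Matrix (Fin d → ZMod L) (Fin d → ZMod L) ℝ)) (nnw 1) ν N φ →
            ∃ c : ℂ, ‖c‖ = 1 ∧ ∀ n, φ n = c * ψ n) ∧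
          ∀ ψ, IsGroundState (U • (1 : Matrix (Fin d → ZMod L) (Fin d → ZMod L) ℝ)) (nnw 1)
              ν N ψ →
            |(1 - condensate ψ) - Id d / Real.sqrt 2 * Real.sqrt U| ≤ ε * Real.sqrt U) ∧
        ∀ (K : Matrix (Fin d → ZMod L) (Fin d → ZMod L) ℝ) (ν : (Fin d → ZMod L) → ℝ)
          (w : (Fin d → ZMod L) → (Fin d → ZMod L) → ℝ),
          K.PosDef → (U • (1 : Matrix (Fin d → ZMod L) (Fin d → ZMod L) ℝ) - K).PosSemidef →
          (∀ x y, 0 ≤ w x y) → (∀ x i, 1 ≤ w x (x + ee i)) → ∀ N : ℤ,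
            (∃ ψ, IsGroundState K w ν N ψ) ∧
            ∀ ψ, IsGroundState K w ν N ψ →
              1 - condensate ψ ≤ (Id d / Real.sqrt 2 + ε) * Real.sqrt U := by
  intro ε hε
  have h2 : (0 : ℝ) < Real.sqrt 2 := Real.sqrt_pos.2 (by norm_num)
  obtain ⟨U₁, hU₁, h1⟩ := hUp d hd (ε / 2) (by positivity)
  obtain ⟨U₂, hU₂, h2'⟩ := hLow d hd (ε / 2) (by positivity)
  refine ⟨min U₁ U₂, lt_min hU₁ hU₂, fun U hU hUU => ?_⟩
  obtain ⟨L₁, hL₁⟩ := h1 U hU (hUU.trans (min_le_left _ _))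
  obtain ⟨L₂, hL₂⟩ := h2' U hU (hUU.trans (min_le_right _ _))
  have hs : 0 < Real.sqrt U := Real.sqrt_pos.2 hU
  obtain ⟨n₀, hn₀⟩ := (Metric.tendsto_atTop.1 (hRie d hd)) (ε / 2 * Real.sqrt 2) (by positivity)
  refine ⟨max (max L₁ L₂) (max (n₀ + 1) 2), fun L _ hL hLe => ?_⟩
  have hL1 : L₁ ≤ L := (le_max_left _ _).trans ((le_max_left _ _).trans hL)
  have hL2 : L₂ ≤ L := (le_max_right _ _).trans ((le_max_left _ _).trans hL)
  have hL3 : n₀ + 1 ≤ L := (le_max_left _ _).trans ((le_max_right _ _).trans hL)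
  have hL4 : 2 ≤ L := (le_max_right _ _).trans ((le_max_right _ _).trans hL)
  have hIL : |IL d L - Id d| < ε / 2 * Real.sqrt 2 := by
    obtain ⟨n, rfl⟩ : ∃ n, L = n + 1 := ⟨L - 1, by omega⟩
    have := hn₀ n (by omega)
    rwa [Real.dist_eq] at this
  have hIL' : |IL d L / Real.sqrt 2 - Id d / Real.sqrt 2| ≤ ε / 2 := by
    rw [← sub_div, abs_div, abs_of_pos h2, div_le_iff₀ h2]
    exact hIL.le
  have hnn0 : ∀ x y : Fin d → ZMod L, 0 ≤ nnw 1 x y := by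
    intro x y
    unfold nnw
    refine Finset.sum_nonneg fun i _ => ?_
    split_ifs
    · exact zero_le_one
    · exact le_rfl
  have hnn1 : ∀ (x : Fin d → ZMod L) (i : Fin d), 1 ≤ nnw 1 x (x + ee i) := by
    intro x i
    unfold nnw
    refine le_trans ?_ (Finset.single_le_sum (f := fun j : Fin d =>
      if x + ee i = x + ee j then (1 : ℝ) else 0) ?_ (Finset.mem_univ i))
    · simp
    · intro j _
      split_ifs
      · exact zero_le_one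
      · exact le_rfl
  have hconnN : Conn (nnw 1 : (Fin d → ZMod L) → (Fin d → ZMod L) → ℝ) :=
    hCon.1 _ (hCon.2.1 d L _ fun x i => lt_of_lt_of_le zero_lt_one (hnn1 x i))
  have hU1 : (U • (1 : Matrix (Fin d → ZMod L) (Fin d → ZMod L) ℝ)).PosDef :=
    Matrix.PosDef.one.smul hU
  obtain ⟨Ψ, hΨ⟩ := hX (U • (1 : Matrix (Fin d → ZMod L) (Fin d → ZMod L) ℝ)) (nnw 1) 0 0
    hU1 hnn0
  obtain ⟨μ, hμ, hcr⟩ := hEnv d L U Ψ hLe hU hΨ
  have ha := a1_eq hμ Ψ hcr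
  have hup := hL₁ L hL1 μ hμ
  have hlow := hL₂ L hL2 hLe
  rw [ha] at hup
  have hcard : (0 : ℝ) < (Fintype.card (Fin d → ZMod L) : ℝ) := by
    exact_mod_cast Fintype.card_pos
  have hi := abs_le.1 hIL'
  have hupper : 1 - (∑ x, ∑ y, cr x y Ψ) / (Fintype.card (Fin d → ZMod L) : ℝ) ^ 2 ≤
      (Id d / Real.sqrt 2 + ε) * Real.sqrt U := by
    refine hup.trans (mul_le_mul_of_nonneg_right ?_ hs.le)
    linarith [hi.2]
  have hgen : ∀ (K : Matrix (Fin d → ZMod L) (Fin d → ZMod L) ℝ) (ν : (Fin d → ZMod L) → ℝ)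
      (w : (Fin d → ZMod L) → (Fin d → ZMod L) → ℝ),
      K.PosDef → (U • (1 : Matrix (Fin d → ZMod L) (Fin d → ZMod L) ℝ) - K).PosSemidef →
      (∀ x y, 0 ≤ w x y) → (∀ x i, 1 ≤ w x (x + ee i)) → (∀ x y, nnw 1 x y ≤ w x y) → ∀ N : ℤ,
        (∃ ψ, IsGroundState K w ν N ψ) ∧
        ∀ ψ, IsGroundState K w ν N ψ →
          1 - condensate ψ ≤ (Id d / Real.sqrt 2 + ε) * Real.sqrt U := by
    intro K ν w hK hKU hw hw1 hnn N
    have hconn : Conn w := hCon.1 w (hCon.2.1 d L w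
      (fun x i => lt_of_lt_of_le zero_lt_one (hw1 x i)))
    obtain ⟨Φ, hΦ⟩ := hX K w ν N hK hw
    obtain ⟨hgs', huniq'⟩ := hCpx K w ν N Φ hK hw hconn hΦ
    refine ⟨⟨_, hgs'⟩, fun ψ hψ => ?_⟩
    obtain ⟨-, hc⟩ := huniq' ψ hψ
    have h5 : ∀ x y, cr x y Ψ ≤ cr x y Φ := hCmp K _ w (nnw 1) ν N Φ Ψ hK hKU hnn0 hnn hconn hΦ hΨ
    refine le_trans ?_ hupper
    unfold condensate
    simp only [hc]
    have : (∑ x, ∑ y, cr x y Ψ) / (Fintype.card (Fin d → ZMod L) : ℝ) ^ 2 ≤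
        (∑ x, ∑ y, cr x y Φ) / (Fintype.card (Fin d → ZMod L) : ℝ) ^ 2 := by
      gcongr with x _ y _
      exact h5 x y
    linarith
  refine ⟨?_, fun K ν w hK hKU hw hw1 N => hgen K ν w hK hKU hw hw1
    (hCon.2.2 d L 1 w hL4 hw hw1) N⟩
  intro ν N
  obtain ⟨Φ, hΦ⟩ := hX (U • (1 : Matrix (Fin d → ZMod L) (Fin d → ZMod L) ℝ)) (nnw 1) ν N
    hU1 hnn0
  obtain ⟨hgs, huniq⟩ := hCpx (U • (1 : Matrix (Fin d → ZMod L) (Fin d → ZMod L) ℝ)) (nnw 1) ν N Φ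
    hU1 hnn0 hconnN hΦ
  refine ⟨⟨_, hgs⟩, ?_, ?_⟩
  · intro ψ φ hψ hφ
    obtain ⟨⟨c, hc, hcψ⟩, -⟩ := huniq ψ hψ
    obtain ⟨⟨c', hc', hcφ⟩, -⟩ := huniq φ hφ
    have hc0 : c ≠ 0 := by
      intro h
      rw [h, norm_zero] at hc
      exact zero_ne_one hc
    refine ⟨c' / c, by rw [norm_div, hc, hc', div_one], fun n => ?_⟩
    rw [hcφ n, hcψ n, ← mul_assoc, div_mul_cancel₀ _ hc0]
  · intro ψ hψ
    obtain ⟨-, hc⟩ := huniq ψ hψ
    have hcond : condensate ψ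
        = (∑ x, ∑ y, cr x y Φ) / (Fintype.card (Fin d → ZMod L) : ℝ) ^ 2 := by
      unfold condensate
      simp only [hc]
    have hup2 := (hgen (U • (1 : Matrix (Fin d → ZMod L) (Fin d → ZMod L) ℝ)) ν (nnw 1) hU1
      (by rw [sub_self]; exact Matrix.PosSemidef.zero) hnn0 hnn1 (fun _ _ => le_rfl) N).2 ψ hψ
    have hlo2 := hlow ν N Φ hΦ
    rw [← hcond] at hlo2
    have hlo3 : (Id d / Real.sqrt 2 - ε) * Real.sqrt U ≤ 1 - condensate ψ := by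
      refine le_trans (mul_le_mul_of_nonneg_right ?_ hs.le) hlo2
      linarith [hi.1]
    rw [abs_le]
    constructor
    · nlinarith [hlo3]
    · nlinarith [hup2]

end Pool.Agent.N657.QL
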