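import Pool.Agent.N657.QL.Stm3

/-!
# Project QL, third part: completeness of the eigenfunctions
-/

namespace Pool.Agent.N657.QL

open MeasureTheory Filter Topology
open Pool.Agent.N657.QR

/-- CPL: there is a complete orthonormal system of real eigenfunctions in the neutral sector. -/
def S_CPL : Prop :=
  ∀ (d L : ℕ) [NeZero L] (U : ℝ), 0 < U →
    ∃ (ι : Type) (e : ι → ℝ) (χ : ι → ((Fin d → ZMod L) → ℤ) → ℝ),
      (∀ j, 0 ≤ e j ∧ IsEig U (e j) (χ j)) ∧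
      (∀ j, ∑' n, χ j n * χ j n = 1) ∧ (∀ i j, i ≠ j → ∑' n, χ i n * χ j n = 0) ∧
      ∀ φ : ((Fin d → ZMod L) → ℤ) → ℝ, Summable (fun n => φ n ^ 2) → Sec 0 φ →
        HasSum (fun j => (∑' n, χ j n * φ n) ^ 2) (nr φ)

end Pool.Agent.N657.QL
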