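import Pool.Agent.N657.QL.All3
import Pool.Agent.N657.QL.Stm4

/-!
# Project QL, third part: final assembly
-/

namespace Pool.Agent.N657.QL

open MeasureTheory Filter Topology
open Pool.Agent.N657.QR

theorem xs_smul {d L : ℕ} [NeZero L] (U t : ℝ) (χ : ((Fin d → ZMod L) → ℤ) → ℝ) :
    xs U (fun n => t * χ n) = t ^ 2 * xs U χ := by
  have h1 : nr (fun n => t * χ n) = t ^ 2 * nr χ := by
    unfold nr
    rw [← tsum_mul_left]
    exact tsum_congr fun n => by ring
  have h2 : ∀ x y, cr x y (fun n => t * χ n) = t ^ 2 * cr x y χ := by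
    intro x y
    unfold cr
    rw [← tsum_mul_left]
    exact tsum_congr fun n => by ring
  have h3 : po (U • (1 : Matrix (Fin d → ZMod L) (Fin d → ZMod L) ℝ)) 0 (fun n => t * χ n) =
      t ^ 2 * po (U • (1 : Matrix (Fin d → ZMod L) (Fin d → ZMod L) ℝ)) 0 χ := by
    unfold po
    rw [← tsum_mul_left]
    exact tsum_congr fun n => by ring
  unfold xs FF
  rw [h1, h3]
  simp only [h2]
  have : ∑ x, ∑ y, nnw 1 x y * (t ^ 2 * cr x y χ) = t ^ 2 * ∑ x, ∑ y, nnw 1 x y * cr x y χ := by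
    rw [Finset.mul_sum]
    refine Finset.sum_congr rfl fun x _ => ?_
    rw [Finset.mul_sum]
    exact Finset.sum_congr rfl fun y _ => by ring
  rw [this]
  ring

/-- Concentration of the weights in a window, finite sets. -/
theorem window_fin (hS : S_SPC) {d L : ℕ} [NeZero L] (U om ε δ : ℝ)
    (Φ : ((Fin d → ZMod L) → ℤ) → ℝ) (hU : 0 < U) (hom : 0 < om) (hε : 0 ≤ ε) (hδ : 0 < δ)
    (hFE : FE Φ) (hSec : Sec 0 Φ) (h1 : xs U Φ ≤ (1 + ε) * om * nr Φ)
    (h2 : ∀ χ : ((Fin d → ZMod L) → ℤ) → ℝ, FE χ → Sec 0 χ →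
      2 * (∑' n, χ n * Φ n) - xs U χ ≤ (1 + ε) / om * nr Φ)
    {ι : Type} (e : ι → ℝ) (χ : ι → ((Fin d → ZMod L) → ℤ) → ℝ)
    (hn : ∀ j, ∑' n, χ j n * χ j n = 1) (ho : ∀ i j, i ≠ j → ∑' n, χ i n * χ j n = 0)
    (S : Finset ι) (he : ∀ j ∈ S, 0 < e j ∧ IsEig U (e j) (χ j))
    (hw : ∀ j ∈ S, δ * om < |e j - om|) :
    ∑ j ∈ S, (∑' n, χ j n * Φ n) ^ 2 ≤ (1 + δ) / δ ^ 2 * (2 * ε * nr Φ) := by
  classical
  have key := hS d L U om ε Φ hU hom hε hFE hSec h1 h2 S.card
    (fun i => e (S.equivFin.symm i)) (fun i => χ (S.equivFin.symm i))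
    (fun i => he _ (S.equivFin.symm i).2) ?_
  · have e1 : ∑ i : Fin S.card, (∑' n, χ (S.equivFin.symm i) n * Φ n) ^ 2 *
        (e (S.equivFin.symm i) / om + om / e (S.equivFin.symm i) - 2) =
        ∑ j ∈ S, (∑' n, χ j n * Φ n) ^ 2 * (e j / om + om / e j - 2) := by
      rw [← Finset.sum_coe_sort S]
      exact Fintype.sum_equiv S.equivFin.symm _ _ (fun i => rfl)
    rw [e1] at key
    have h3 : ∀ j ∈ S, (∑' n, χ j n * Φ n) ^ 2 * (δ ^ 2 / (1 + δ)) ≤
        (∑' n, χ j n * Φ n) ^ 2 * (e j / om + om / e j - 2) := by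
      intro j hj
      refine mul_le_mul_of_nonneg_left ?_ (sq_nonneg _)
      have hej := (he j hj).1
      have hwj := hw j hj
      have e2 : e j / om + om / e j - 2 = (e j - om) ^ 2 / (e j * om) := by
        field_simp
        ring
      rw [e2, div_le_div_iff₀ (by positivity) (by positivity)]
      rcases lt_abs.1 hwj with h | h
      · -- e > (1 + δ) om
        have h4 : 0 < e j - om - δ * om := by linarith
        have h5 : 0 ≤ (e j - (1 + δ) * om) * ((1 + δ) * e j - om) := by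
          apply mul_nonneg
          · linarith
          · nlinarith
        nlinarith [h5]
      · have h5 : 0 ≤ ((1 - δ) * om - e j) * (om - (1 - δ) * e j) + δ ^ 2 * 0 := by
          have h6 : e j < (1 - δ) * om := by linarith
          have h7 : 0 < om - (1 - δ) * e j := by
            rcases le_or_gt δ 1 with h8 | h8
            · nlinarith
            · nlinarith
          nlinarith [mul_pos (sub_pos.2 h6) h7]
        have h8 : 0 < e j * om := by positivity
        nlinarith [h5, mul_pos (mul_pos hδ hδ) h8, mul_pos (mul_pos (mul_pos hδ hδ) hδ) h8]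
    have h4 := Finset.sum_le_sum h3
    rw [← Finset.sum_mul] at h4
    have h5 : (∑ j ∈ S, (∑' n, χ j n * Φ n) ^ 2) * (δ ^ 2 / (1 + δ)) ≤ 2 * ε * nr Φ := h4.trans key
    have h6 : ∑ j ∈ S, (∑' n, χ j n * Φ n) ^ 2 =
        (1 + δ) / δ ^ 2 * ((∑ j ∈ S, (∑' n, χ j n * Φ n) ^ 2) * (δ ^ 2 / (1 + δ))) := by
      field_simp
    rw [h6]
    exact mul_le_mul_of_nonneg_left h5 (by positivity)
  · intro i j
    split_ifs with hij
    · subst hij
      exact hn _
    · refine ho _ _ fun h => hij ?_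
      have := S.equivFin.symm.injective (Subtype.ext h)
      exact this

/-- an eigenfunction with the ground state energy is orthogonal to `Φ` -/
theorem zero_overlap {d L : ℕ} [NeZero L] (U C : ℝ) (Φ χ : ((Fin d → ZMod L) → ℤ) → ℝ)
    (h2 : ∀ χ : ((Fin d → ZMod L) → ℤ) → ℝ, FE χ → Sec 0 χ →
      2 * (∑' n, χ n * Φ n) - xs U χ ≤ C) (hχ : IsEig U 0 χ) : ∑' n, χ n * Φ n = 0 := by
  obtain ⟨hFE, hSec, heq⟩ := hχ
  have hx : xs U χ = 0 := by
    have h1 := Pool.Agent.N252.QLB.BB_eig bas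
      (U • (1 : Matrix (Fin d → ZMod L) (Fin d → ZMod L) ℝ)) (nnw 1) 0
      (en (U • (1 : Matrix (Fin d → ZMod L) (Fin d → ZMod L) ℝ)) (nnw 1) 0 0) 0
      ⟨χ, hFE⟩ ⟨χ, hFE⟩ heq
    rw [Pool.Agent.N252.QLB.BB_self, zero_mul] at h1
    exact h1
  by_contra hne
  set o : ℝ := ∑' n, χ n * Φ n with ho
  have h3 := h2 (fun n => ((|C| + 1) / o) * χ n) (Pool.Agent.N252.QLB.FE_smul _ hFE)
    (fun n hn => hSec n fun h => hn (by simp [h]))
  rw [xs_smul, hx, mul_zero, sub_zero] at h3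
  have h4 : ∑' n, ((|C| + 1) / o) * χ n * Φ n = |C| + 1 := by
    have : ∀ n, ((|C| + 1) / o) * χ n * Φ n = ((|C| + 1) / o) * (χ n * Φ n) := fun n => by ring
    simp only [this]
    rw [tsum_mul_left, ← ho, div_mul_cancel₀ _ hne]
  rw [h4] at h3
  have := le_abs_self C
  have := abs_nonneg C
  linarith

/-- Concentration of the weights in a window, for a complete system. -/
theorem window_all (hS : S_SPC) {d L : ℕ} [NeZero L] (U om ε δ : ℝ)
    (Φ : ((Fin d → ZMod L) → ℤ) → ℝ) (hU : 0 < U) (hom : 0 < om) (hε : 0 ≤ ε) (hδ : 0 < δ)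
    (hFE : FE Φ) (hSec : Sec 0 Φ) (h1 : xs U Φ ≤ (1 + ε) * om * nr Φ)
    (h2 : ∀ χ : ((Fin d → ZMod L) → ℤ) → ℝ, FE χ → Sec 0 χ →
      2 * (∑' n, χ n * Φ n) - xs U χ ≤ (1 + ε) / om * nr Φ)
    {ι : Type} (e : ι → ℝ) (χ : ι → ((Fin d → ZMod L) → ℤ) → ℝ)
    (he : ∀ j, 0 ≤ e j ∧ IsEig U (e j) (χ j))
    (hn : ∀ j, ∑' n, χ j n * χ j n = 1) (ho : ∀ i j, i ≠ j → ∑' n, χ i n * χ j n = 0)
    (hc : HasSum (fun j => (∑' n, χ j n * Φ n) ^ 2) (nr Φ)) [∀ j, Decidable (|e j - om| ≤ δ * om)] :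
    nr Φ - (1 + δ) / δ ^ 2 * (2 * ε * nr Φ) ≤
      ∑' j, if |e j - om| ≤ δ * om then (∑' n, χ j n * Φ n) ^ 2 else 0 := by
  classical
  set f : ι → ℝ := fun j => (∑' n, χ j n * Φ n) ^ 2 with hf
  have hf0 : ∀ j, 0 ≤ f j := fun j => sq_nonneg _
  have s1 : Summable (fun j => if |e j - om| ≤ δ * om then f j else 0) :=
    Summable.of_nonneg_of_le (fun j => by split_ifs <;> [exact hf0 j; exact le_rfl])
      (fun j => by split_ifs <;> [exact le_rfl; exact hf0 j]) hc.summable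
  have s2 : Summable (fun j => if |e j - om| ≤ δ * om then 0 else f j) :=
    Summable.of_nonneg_of_le (fun j => by split_ifs <;> [exact le_rfl; exact hf0 j])
      (fun j => by split_ifs <;> [exact hf0 j; exact le_rfl]) hc.summable
  have e1 : nr Φ = (∑' j, if |e j - om| ≤ δ * om then f j else 0) +
      ∑' j, if |e j - om| ≤ δ * om then 0 else f j := by
    rw [← s1.tsum_add s2, ← hc.tsum_eq]
    refine tsum_congr fun j => ?_
    split_ifs
    · rw [add_zero]
    · rw [zero_add]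
  have e2 : (∑' j, if |e j - om| ≤ δ * om then 0 else f j) ≤
      (1 + δ) / δ ^ 2 * (2 * ε * nr Φ) := by
    refine s2.tsum_le_of_sum_le fun S => ?_
    have e3 : ∑ j ∈ S, (if |e j - om| ≤ δ * om then 0 else f j) =
        ∑ j ∈ S.filter (fun j => ¬ |e j - om| ≤ δ * om ∧ 0 < e j), f j := by
      rw [Finset.sum_filter]
      refine Finset.sum_congr rfl fun j _ => ?_
      by_cases h3 : |e j - om| ≤ δ * om
      · simp [h3]
      · by_cases h4 : 0 < e j
        · simp [h3, h4]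
        · have h5 : e j = 0 := le_antisymm (not_lt.1 h4) (he j).1
          have h6 : f j = 0 := by
            have h7 := (he j).2
            rw [h5] at h7
            show (∑' n, χ j n * Φ n) ^ 2 = 0
            rw [zero_overlap U _ Φ (χ j) h2 h7]
            ring
          simp [h3, h4, h6]
    rw [e3]
    exact window_fin hS U om ε δ Φ hU hom hε hδ hFE hSec h1 h2 e χ hn ho _
      (fun j hj => ⟨(Finset.mem_filter.1 hj).2.2, (he j).2⟩)
      (fun j hj => not_le.1 (Finset.mem_filter.1 hj).2.1)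
  linarith

end Pool.Agent.N657.QL
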