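import Pool.Agent.N657.QL.Fin3

/-!
# Project QL, third part: final assembly for plane waves
-/

namespace Pool.Agent.N657.QL

open MeasureTheory Filter Topology
open Pool.Agent.N657.QR

/-- The third main theorem for real ground states. -/
theorem modes_real (hC : S_CPL) (d : ℕ) (hd : 2 ≤ d) (ε : ℝ) (hε : 0 < ε) :
    ∃ U₀ : ℝ, 0 < U₀ ∧ ∀ U : ℝ, 0 < U → U ≤ U₀ → ∃ L₀ : ℕ, ∀ (L : ℕ) [NeZero L], L₀ ≤ L →
      Even L → ∃ (ι : Type) (e : ι → ℝ) (χ : ι → ((Fin d → ZMod L) → ℤ) → ℝ),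
        (∀ j, 0 ≤ e j ∧ IsEig U (e j) (χ j)) ∧
        (∀ j, ∑' n, χ j n * χ j n = 1) ∧ (∀ i j, i ≠ j → ∑' n, χ i n * χ j n = 0) ∧
        (∀ φ : ((Fin d → ZMod L) → ℤ) → ℝ, Summable (fun n => φ n ^ 2) → Sec 0 φ →
          HasSum (fun j => (∑' n, χ j n * φ n) ^ 2) (nr φ)) ∧
        ∀ Ψ : ((Fin d → ZMod L) → ℤ) → ℝ,
          IsG (U • (1 : Matrix (Fin d → ZMod L) (Fin d → ZMod L) ℝ)) (nnw 1) 0 0 Ψ →
          ∀ k : Fin d → ZMod L, k ≠ 0 →
            |((∑ x, ∑ y, ck k x * ck k y * cr x y Ψ) + ∑ x, ∑ y, sk k x * sk k y * cr x y Ψ) /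
                (Fintype.card (Fin d → ZMod L) : ℝ) - Real.sqrt (U / (2 * lam k))| ≤
              ε * Real.sqrt (U / (2 * lam k)) ∧
            |(nr (dw (ck k) Ψ) + nr (dw (sk k) Ψ)) / (Fintype.card (Fin d → ZMod L) : ℝ) -
                Real.sqrt (lam k / (8 * U))| ≤ ε * Real.sqrt (lam k / (8 * U)) ∧
            (1 - ε) * (nr (dw (ck k) Ψ) + nr (dw (sk k) Ψ)) ≤
              ∑' j, if |e j - Real.sqrt (2 * U * lam k)| ≤ ε * Real.sqrt (2 * U * lam k) then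
                (∑' n, χ j n * dw (ck k) Ψ n) ^ 2 + (∑' n, χ j n * dw (sk k) Ψ n) ^ 2 else 0 := by
  set ε' : ℝ := min ε (ε ^ 3 / (2 * (1 + ε))) with hε'
  have hε'0 : 0 < ε' := lt_min hε (by positivity)
  have hε'1 : ε' ≤ ε := min_le_left _ _
  have hε'2 : (1 + ε) / ε ^ 2 * (2 * ε') ≤ ε := by
    have h : ε' ≤ ε ^ 3 / (2 * (1 + ε)) := min_le_right _ _
    calc (1 + ε) / ε ^ 2 * (2 * ε') ≤ (1 + ε) / ε ^ 2 * (2 * (ε ^ 3 / (2 * (1 + ε)))) := by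
          gcongr
      _ = ε := by field_simp
  obtain ⟨U₀, hU₀, h⟩ := mod_ d hd ε' hε'0
  refine ⟨U₀, hU₀, fun U hU hUU => ?_⟩
  obtain ⟨L₀, hL₀⟩ := h U hU hUU
  refine ⟨L₀, fun L _ hL hLe => ?_⟩
  obtain ⟨ι, e, χ, h1, h2, h3, h4⟩ := hC d L U hU
  refine ⟨ι, e, χ, h1, h2, h3, h4, fun Ψ hΨ k hk => ?_⟩
  have hlow : 16 / (L : ℝ) ^ 2 ≤ lam k := pla.low d L k hk
  have hlam : 0 < lam k := lt_of_lt_of_le (by
    have : (0 : ℝ) < L := by exact_mod_cast Nat.pos_of_ne_zero (NeZero.ne L)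
    positivity) hlow
  have hV : (0 : ℝ) < (Fintype.card (Fin d → ZMod L) : ℝ) := by exact_mod_cast Fintype.card_pos
  have hnorm := pla.norm d L k
  obtain ⟨c1, c2, c3, c4, c5, c6⟩ := hL₀ L hL hLe Ψ hΨ (lam k) (ck k) hlow
    (fun x => (pla.lapc d L k x).1)
  obtain ⟨s1, s2, s3, s4, s5, s6⟩ := hL₀ L hL hLe Ψ hΨ (lam k) (sk k) hlow
    (fun x => (pla.lapc d L k x).2)
  have hom : 0 < Real.sqrt (2 * U * lam k) := Real.sqrt_pos.2 (by positivity)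
  obtain ⟨fc1, fc2, -, -⟩ := inv_ d L U (lam k) Ψ (ck k) hU hlam hΨ
    (fun x => (pla.lapc d L k x).1)
  obtain ⟨fs1, fs2, -, -⟩ := inv_ d L U (lam k) Ψ (sk k) hU hlam hΨ
    (fun x => (pla.lapc d L k x).2)
  have hsq1 : 0 ≤ Real.sqrt (U / (2 * lam k)) := Real.sqrt_nonneg _
  have hsq2 : 0 ≤ Real.sqrt (lam k / (8 * U)) := Real.sqrt_nonneg _
  set V : ℝ := (Fintype.card (Fin d → ZMod L) : ℝ) with hVd
  set σc : ℝ := ∑ x, ck k x ^ 2 with hσc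
  set σs : ℝ := ∑ x, sk k x ^ 2 with hσs
  have hσc0 : 0 ≤ σc := Finset.sum_nonneg fun _ _ => sq_nonneg _
  have hσs0 : 0 ≤ σs := Finset.sum_nonneg fun _ _ => sq_nonneg _
  refine ⟨?_, ?_, ?_⟩
  · set s : ℝ := Real.sqrt (U / (2 * lam k)) with hs
    have e1 : (1 - ε') * V * s ≤ (∑ x, ∑ y, ck k x * ck k y * cr x y Ψ) +
        ∑ x, ∑ y, sk k x * sk k y * cr x y Ψ := by
      rw [← hnorm]; linarith
    have e2 : (∑ x, ∑ y, ck k x * ck k y * cr x y Ψ) +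
        ∑ x, ∑ y, sk k x * sk k y * cr x y Ψ ≤ (1 + ε') * V * s := by
      rw [← hnorm]; linarith
    have e3 : ε' * s ≤ ε * s := mul_le_mul_of_nonneg_right hε'1 hsq1
    rw [abs_le]
    constructor
    · have : (1 - ε') * s ≤ ((∑ x, ∑ y, ck k x * ck k y * cr x y Ψ) +
          ∑ x, ∑ y, sk k x * sk k y * cr x y Ψ) / V := by
        rw [le_div_iff₀ hV]; linarith
      linarith
    · have : ((∑ x, ∑ y, ck k x * ck k y * cr x y Ψ) +
          ∑ x, ∑ y, sk k x * sk k y * cr x y Ψ) / V ≤ (1 + ε') * s := by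
        rw [div_le_iff₀ hV]; linarith
      linarith
  · set s : ℝ := Real.sqrt (lam k / (8 * U)) with hs
    have e1 : (1 - ε') * V * s ≤ nr (dw (ck k) Ψ) + nr (dw (sk k) Ψ) := by
      rw [← hnorm]; linarith
    have e2 : nr (dw (ck k) Ψ) + nr (dw (sk k) Ψ) ≤ V * s := by
      rw [← hnorm]; linarith
    have e3 : ε' * s ≤ ε * s := mul_le_mul_of_nonneg_right hε'1 hsq2
    have e4 : 0 ≤ ε * s := by positivity
    rw [abs_le]
    constructor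
    · have : (1 - ε') * s ≤ (nr (dw (ck k) Ψ) + nr (dw (sk k) Ψ)) / V := by
        rw [le_div_iff₀ hV]; linarith
      linarith
    · have : (nr (dw (ck k) Ψ) + nr (dw (sk k) Ψ)) / V ≤ s := by
        rw [div_le_iff₀ hV]; linarith
      linarith
  · have hcc := h4 (dw (ck k) Ψ) fc1.1 fc2
    have hss := h4 (dw (sk k) Ψ) fs1.1 fs2
    have w1 := window_all spc U (Real.sqrt (2 * U * lam k)) ε' ε (dw (ck k) Ψ) hU hom hε'0.le hε
      fc1 fc2 c5 c6 e χ h1 h2 h3 hcc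
    have w2 := window_all spc U (Real.sqrt (2 * U * lam k)) ε' ε (dw (sk k) Ψ) hU hom hε'0.le hε
      fs1 fs2 s5 s6 e χ h1 h2 h3 hss
    have t1 : Summable (fun j => if |e j - Real.sqrt (2 * U * lam k)| ≤
        ε * Real.sqrt (2 * U * lam k) then (∑' n, χ j n * dw (ck k) Ψ n) ^ 2 else 0) :=
      Summable.of_nonneg_of_le (fun j => by split_ifs <;> [exact sq_nonneg _; exact le_rfl])
        (fun j => by split_ifs <;> [exact le_rfl; exact sq_nonneg _]) hcc.summable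
    have t2 : Summable (fun j => if |e j - Real.sqrt (2 * U * lam k)| ≤
        ε * Real.sqrt (2 * U * lam k) then (∑' n, χ j n * dw (sk k) Ψ n) ^ 2 else 0) :=
      Summable.of_nonneg_of_le (fun j => by split_ifs <;> [exact sq_nonneg _; exact le_rfl])
        (fun j => by split_ifs <;> [exact le_rfl; exact sq_nonneg _]) hss.summable
    have e5 : (∑' j, if |e j - Real.sqrt (2 * U * lam k)| ≤ ε * Real.sqrt (2 * U * lam k) then
        (∑' n, χ j n * dw (ck k) Ψ n) ^ 2 + (∑' n, χ j n * dw (sk k) Ψ n) ^ 2 else 0) =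
        (∑' j, if |e j - Real.sqrt (2 * U * lam k)| ≤ ε * Real.sqrt (2 * U * lam k) then
          (∑' n, χ j n * dw (ck k) Ψ n) ^ 2 else 0) +
        ∑' j, if |e j - Real.sqrt (2 * U * lam k)| ≤ ε * Real.sqrt (2 * U * lam k) then
          (∑' n, χ j n * dw (sk k) Ψ n) ^ 2 else 0 := by
      rw [← t1.tsum_add t2]
      refine tsum_congr fun j => ?_
      split_ifs
      · rfl
      · rw [add_zero]
    rw [e5]
    have n1 : 0 ≤ nr (dw (ck k) Ψ) := tsum_nonneg fun _ => sq_nonneg _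
    have n2 : 0 ≤ nr (dw (sk k) Ψ) := tsum_nonneg fun _ => sq_nonneg _
    have m1 : (1 + ε) / ε ^ 2 * (2 * ε' * nr (dw (ck k) Ψ)) ≤ ε * nr (dw (ck k) Ψ) := by
      calc (1 + ε) / ε ^ 2 * (2 * ε' * nr (dw (ck k) Ψ)) =
            ((1 + ε) / ε ^ 2 * (2 * ε')) * nr (dw (ck k) Ψ) := by ring
        _ ≤ ε * nr (dw (ck k) Ψ) := mul_le_mul_of_nonneg_right hε'2 n1
    have m2 : (1 + ε) / ε ^ 2 * (2 * ε' * nr (dw (sk k) Ψ)) ≤ ε * nr (dw (sk k) Ψ) := by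
      calc (1 + ε) / ε ^ 2 * (2 * ε' * nr (dw (sk k) Ψ)) =
            ((1 + ε) / ε ^ 2 * (2 * ε')) * nr (dw (sk k) Ψ) := by ring
        _ ≤ ε * nr (dw (sk k) Ψ) := mul_le_mul_of_nonneg_right hε'2 n2
    linarith

end Pool.Agent.N657.QL
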