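import Pool.Agent.N657.QL.Fin4

/-!
# Project QL, third part: the theorem for complex ground states
-/

open MeasureTheory Filter Topology

namespace Pool.Agent.N657.QL.BM

/-- Sites of the torus of side `L` in dimension `d`. -/
abbrev Site (d L : ℕ) := Fin d → ZMod L

variable {d L : ℕ} [NeZero L]

/-- `ψ` is a normalised wave function of finite energy with as many particles as in the uniform
filling. A configuration `n : Site d L → ℤ` gives the number of particles at each site, counted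
from a large uniform filling. -/
structure IsState (ψ : (Site d L → ℤ) → ℂ) : Prop where
  neutral : ∀ n, ψ n ≠ 0 → ∑ x, n x = 0
  normalised : HasSum (fun n => ‖ψ n‖ ^ 2) 1
  finite_energy : Summable fun n : Site d L → ℤ => (∑ x, (n x : ℝ) ^ 2) * ‖ψ n‖ ^ 2

/-- The one-particle correlation `⟨ψ, a_x^* a_y ψ⟩`, where the operator `a_x^* a_y` moves a particle
from `y` to `x` (amplitude one, `a_x^* a_y = e^{i (θ_x - θ_y)}`). -/
noncomputable def correlation (x y : Site d L) (ψ : (Site d L → ℤ) → ℂ) : ℂ :=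
  ∑' n : Site d L → ℤ, (starRingEnd ℂ) (ψ (n + Pi.single x 1 - Pi.single y 1)) * ψ n

/-- The expectation in `ψ` of the Hamiltonian
`U ∑_x n_x² - ∑_x ∑_i (a_x^* a_{x + e_i} + a_{x + e_i}^* a_x) / 2`. -/
noncomputable def energy (U : ℝ) (ψ : (Site d L → ℤ) → ℂ) : ℝ :=
  U * (∑' n : Site d L → ℤ, (∑ x, (n x : ℝ) ^ 2) * ‖ψ n‖ ^ 2)
    - ∑ x : Site d L, ∑ i : Fin d, (correlation x (x + Pi.single i 1) ψ).re

/-- `ψ` is a ground state. -/
def IsGroundState (U : ℝ) (ψ : (Site d L → ℤ) → ℂ) : Prop :=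
  IsState ψ ∧ ∀ φ : (Site d L → ℤ) → ℂ, IsState φ → energy U ψ ≤ energy U φ

/-- `χ` is a real eigenfunction of the Hamiltonian with the eigenvalue `E`, of finite energy, with as
many particles as in the uniform filling. -/
structure IsEigenfunction (U E : ℝ) (χ : (Site d L → ℤ) → ℝ) : Prop where
  neutral : ∀ n, χ n ≠ 0 → ∑ x, n x = 0
  summable : Summable fun n => χ n ^ 2
  finite_energy : Summable fun n : Site d L → ℤ => (∑ x, (n x : ℝ) ^ 2) * χ n ^ 2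
  equation : ∀ n : Site d L → ℤ, U * (∑ x, (n x : ℝ) ^ 2) * χ n -
    (∑ x : Site d L, ∑ i : Fin d, (χ (n + Pi.single x 1 - Pi.single (x + Pi.single i 1) 1) +
      χ (n + Pi.single (x + Pi.single i 1) 1 - Pi.single x 1))) / 2 = E * χ n

/-- The plane wave `e^{2 π i k·x / L}`. -/
noncomputable def wave (k x : Site d L) : ℂ :=
  Complex.exp (2 * Real.pi * Complex.I * (∑ i, ((k i).val : ℂ) * ((x i).val : ℂ)) / L)

/-- `∑_i (2 - 2 cos (2 π k_i / L))`. -/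
noncomputable def dispersion (k : Site d L) : ℝ :=
  ∑ i : Fin d, (2 - 2 * Real.cos (2 * Real.pi * ((k i).val : ℝ) / (L : ℝ)))

/-- The momentum distribution `⟨a_k^* a_k⟩`, `a_k = |V|^{-1/2} ∑_x e^{-2 π i k·x / L} a_x`. -/
noncomputable def momentumDistribution (k : Site d L) (ψ : (Site d L → ℤ) → ℂ) : ℝ :=
  (∑ x, ∑ y, wave k x * (starRingEnd ℂ) (wave k y) * correlation x y ψ).re /
    (Fintype.card (Site d L) : ℝ)

/-- The density wave `∑_x e^{2 π i k·x / L} n_x` applied to `ψ`. -/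
noncomputable def densityWave (k : Site d L) (ψ : (Site d L → ℤ) → ℂ) (n : Site d L → ℤ) : ℂ :=
  (∑ x, wave k x * (n x : ℂ)) * ψ n

/-- Squared norm. -/
noncomputable def normSq (f : (Site d L → ℤ) → ℂ) : ℝ := ∑' n, ‖f n‖ ^ 2

/-! ### the connection with project QR -/

theorem isState_iff (ψ : (Site d L → ℤ) → ℂ) :
    IsState ψ ↔ Pool.Agent.N657.QR.IsState 0 ψ :=
  ⟨fun h => ⟨h.1, h.2, h.3⟩, fun h => ⟨h.1, h.2, h.3⟩⟩

theorem pot_eq (U : ℝ) (n : Site d L → ℤ) :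
    (∑ x, ∑ y, (U • (1 : Matrix (Site d L) (Site d L) ℝ)) x y *
      (((n x : ℝ) - (0 : Site d L → ℝ) x) * ((n y : ℝ) - (0 : Site d L → ℝ) y))) =
      U * ∑ x, (n x : ℝ) ^ 2 := by
  rw [Finset.mul_sum]
  refine Finset.sum_congr rfl fun x _ => ?_
  simp only [Matrix.smul_apply, Matrix.one_apply, smul_eq_mul, Pi.zero_apply, sub_zero, mul_ite,
    mul_one, mul_zero, ite_mul, zero_mul, Finset.sum_ite_eq, Finset.mem_univ, if_true]
  ring

theorem hop_eq (F : Site d L → Site d L → ℝ) :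
    ∑ x, ∑ y, Pool.Agent.N657.QR.nnw 1 x y * F x y =
      ∑ x : Site d L, ∑ i : Fin d, F x (x + Pi.single i 1) := by
  refine Finset.sum_congr rfl fun x _ => ?_
  unfold Pool.Agent.N657.QR.nnw Pool.Agent.N657.QR.ee
  simp only [Finset.sum_mul]
  rw [Finset.sum_comm]
  refine Finset.sum_congr rfl fun i _ => ?_
  simp

theorem energy_eq (U : ℝ) (ψ : (Site d L → ℤ) → ℂ) :
    Pool.Agent.N657.QR.energy (U • (1 : Matrix (Site d L) (Site d L) ℝ))
      (Pool.Agent.N657.QR.nnw 1) 0 ψ = energy U ψ := by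
  unfold Pool.Agent.N657.QR.energy energy
  rw [hop_eq (fun x y => (Pool.Agent.N657.QR.corr x y ψ).re)]
  congr 1
  rw [← tsum_mul_left]
  refine tsum_congr fun n => ?_
  rw [pot_eq, mul_assoc]

theorem isGroundState_iff (U : ℝ) (ψ : (Site d L → ℤ) → ℂ) :
    IsGroundState U ψ ↔ Pool.Agent.N657.QR.IsGroundState
      (U • (1 : Matrix (Site d L) (Site d L) ℝ)) (Pool.Agent.N657.QR.nnw 1) 0 0 ψ := by
  unfold IsGroundState Pool.Agent.N657.QR.IsGroundState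
  simp only [isState_iff, energy_eq]

theorem eig_of (U e E : ℝ) (χ : (Site d L → ℤ) → ℝ) (h : IsEig U e χ)
    (hE : Pool.Agent.N657.QR.en (U • (1 : Matrix (Site d L) (Site d L) ℝ))
      (Pool.Agent.N657.QR.nnw 1) 0 0 = E) : IsEigenfunction U (E + e) χ := by
  obtain ⟨h1, h2, h3⟩ := h
  refine ⟨h2, h1.1, h1.2, fun n => ?_⟩
  have h4 := h3 n
  rw [hE] at h4
  rw [← h4, hop_eq (fun x y => χ (Pool.Agent.N657.QR.hp x y n) + χ (Pool.Agent.N657.QR.hp y x n))]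
  have h5 : Pool.Agent.N657.QR.pot (U • (1 : Matrix (Site d L) (Site d L) ℝ)) 0 n =
      U * ∑ x, (n x : ℝ) ^ 2 := pot_eq U n
  rw [h5]
  rfl

theorem wave_eq (k x : Site d L) : wave k x = (ck k x : ℂ) + (sk k x : ℂ) * Complex.I := by
  unfold wave ck sk
  rw [show (2 * Real.pi * Complex.I * (∑ i, ((k i).val : ℂ) * ((x i).val : ℂ)) / L) =
    ((2 * Real.pi * (∑ i, ((k i).val : ℝ) * ((x i).val : ℝ)) / (L : ℝ) : ℝ) : ℂ) * Complex.I by
      push_cast; ring]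
  rw [Complex.exp_mul_I, ← Complex.ofReal_cos, ← Complex.ofReal_sin]

/-- correlations of a multiple of a real wave function -/
theorem corr_mul (c : ℂ) (hc : ‖c‖ = 1) (Φ : (Site d L → ℤ) → ℝ) (x y : Site d L) :
    correlation x y (fun n => c * (Φ n : ℂ)) = (Pool.Agent.N657.QR.cr x y Φ : ℂ) := by
  unfold correlation Pool.Agent.N657.QR.cr
  rw [Complex.ofReal_tsum]
  refine tsum_congr fun n => ?_
  have h1 : (starRingEnd ℂ) c * c = 1 := by
    rw [mul_comm, Complex.mul_conj, Complex.normSq_eq_norm_sq, hc]; simp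
  rw [map_mul, Complex.conj_ofReal, Complex.ofReal_mul]
  calc (starRingEnd ℂ) c * (Φ (n + Pi.single x 1 - Pi.single y 1) : ℂ) * (c * (Φ n : ℂ))
      = ((starRingEnd ℂ) c * c) * ((Φ (n + Pi.single x 1 - Pi.single y 1) : ℂ) * (Φ n : ℂ)) := by
        ring
    _ = (Φ (Pool.Agent.N657.QR.hp x y n) : ℂ) * (Φ n : ℂ) := by rw [h1, one_mul]; rfl

theorem md_eq (c : ℂ) (hc : ‖c‖ = 1) (Φ : (Site d L → ℤ) → ℝ) (k : Site d L) :
    momentumDistribution k (fun n => c * (Φ n : ℂ)) =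
      ((∑ x, ∑ y, ck k x * ck k y * Pool.Agent.N657.QR.cr x y Φ) +
        ∑ x, ∑ y, sk k x * sk k y * Pool.Agent.N657.QR.cr x y Φ) /
        (Fintype.card (Site d L) : ℝ) := by
  unfold momentumDistribution
  congr 1
  rw [Complex.re_sum, ← Finset.sum_add_distrib]
  refine Finset.sum_congr rfl fun x _ => ?_
  rw [Complex.re_sum, ← Finset.sum_add_distrib]
  refine Finset.sum_congr rfl fun y _ => ?_
  rw [corr_mul c hc, wave_eq, wave_eq]
  simp only [map_add, map_mul, Complex.conj_ofReal, Complex.conj_I, Complex.mul_re,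
    Complex.add_re, Complex.add_im, Complex.mul_im, Complex.ofReal_re, Complex.ofReal_im,
    Complex.I_re, Complex.I_im, Complex.neg_re, Complex.neg_im]
  ring

theorem dw_eq (c : ℂ) (Φ : (Site d L → ℤ) → ℝ) (k : Site d L) (n : Site d L → ℤ) :
    densityWave k (fun n => c * (Φ n : ℂ)) n =
      c * ((dw (ck k) Φ n : ℂ) + (dw (sk k) Φ n : ℂ) * Complex.I) := by
  unfold densityWave dw
  have h : ∑ x, wave k x * (n x : ℂ) = (∑ x, (ck k x : ℂ) * (n x : ℂ)) +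
      (∑ x, (sk k x : ℂ) * (n x : ℂ)) * Complex.I := by
    rw [Finset.sum_mul, ← Finset.sum_add_distrib]
    refine Finset.sum_congr rfl fun x _ => ?_
    rw [wave_eq]; ring
  rw [h]
  push_cast
  ring

theorem norm_dw (c : ℂ) (hc : ‖c‖ = 1) (a b : ℝ) :
    ‖c * ((a : ℂ) + (b : ℂ) * Complex.I)‖ ^ 2 = a ^ 2 + b ^ 2 := by
  rw [norm_mul, hc, one_mul, ← Complex.normSq_eq_norm_sq, Complex.normSq_add_mul_I]

theorem normSq_dw (c : ℂ) (hc : ‖c‖ = 1) (Φ : (Site d L → ℤ) → ℝ) (k : Site d L)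
    (h1 : Summable fun n => dw (ck k) Φ n ^ 2) (h2 : Summable fun n => dw (sk k) Φ n ^ 2) :
    normSq (densityWave k (fun n => c * (Φ n : ℂ))) =
      Pool.Agent.N657.QR.nr (dw (ck k) Φ) + Pool.Agent.N657.QR.nr (dw (sk k) Φ) := by
  unfold normSq Pool.Agent.N657.QR.nr
  rw [← h1.tsum_add h2]
  refine tsum_congr fun n => ?_
  rw [dw_eq, norm_dw c hc]

theorem ov_dw (c : ℂ) (hc : ‖c‖ = 1) (Φ χ : (Site d L → ℤ) → ℝ) (k : Site d L)
    (h1 : Summable fun n => χ n * dw (ck k) Φ n) (h2 : Summable fun n => χ n * dw (sk k) Φ n) :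
    ‖∑' n, (χ n : ℂ) * densityWave k (fun n => c * (Φ n : ℂ)) n‖ ^ 2 =
      (∑' n, χ n * dw (ck k) Φ n) ^ 2 + (∑' n, χ n * dw (sk k) Φ n) ^ 2 := by
  have e : (∑' n, (χ n : ℂ) * densityWave k (fun n => c * (Φ n : ℂ)) n) =
      c * (((∑' n, χ n * dw (ck k) Φ n : ℝ) : ℂ) +
        ((∑' n, χ n * dw (sk k) Φ n : ℝ) : ℂ) * Complex.I) := by
    rw [Complex.ofReal_tsum, Complex.ofReal_tsum]
    have h1' : Summable fun n => ((χ n * dw (ck k) Φ n : ℝ) : ℂ) := Complex.summable_ofReal.2 h1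
    have h2' : Summable fun n => ((χ n * dw (sk k) Φ n : ℝ) : ℂ) * Complex.I :=
      (Complex.summable_ofReal.2 h2).mul_right _
    rw [← tsum_mul_right, ← h1'.tsum_add h2', ← tsum_mul_left]
    refine tsum_congr fun n => ?_
    rw [dw_eq]
    push_cast
    ring
  rw [e, norm_dw c hc]

theorem main_of (hC : S_CPL) (d : ℕ) (hd : 2 ≤ d) (ε : ℝ) (hε : 0 < ε) :
    ∃ U₀ : ℝ, 0 < U₀ ∧ ∀ U : ℝ, 0 < U → U ≤ U₀ → ∃ L₀ : ℕ, ∀ (L : ℕ) [NeZero L], L₀ ≤ L →
      Even L → (∃ ψ : (Site d L → ℤ) → ℂ, IsGroundState U ψ) ∧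
        (∀ ψ φ : (Site d L → ℤ) → ℂ, IsGroundState U ψ → IsGroundState U φ →
          ∃ c : ℂ, ‖c‖ = 1 ∧ ∀ n, φ n = c * ψ n) ∧
        ∃ (ι : Type) (e : ι → ℝ) (χ : ι → (Site d L → ℤ) → ℝ),
          (∀ j, ∑' n, χ j n * χ j n = 1) ∧ (∀ i j, i ≠ j → ∑' n, χ i n * χ j n = 0) ∧
          (∀ φ : (Site d L → ℤ) → ℝ, Summable (fun n => φ n ^ 2) →
            (∀ n, φ n ≠ 0 → ∑ x, n x = 0) →
            HasSum (fun j => (∑' n, χ j n * φ n) ^ 2) (∑' n, φ n ^ 2)) ∧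
          ∀ ψ : (Site d L → ℤ) → ℂ, IsGroundState U ψ →
            (∀ j, 0 ≤ e j ∧ IsEigenfunction U (energy U ψ + e j) (χ j)) ∧
            ∀ k : Site d L, k ≠ 0 →
              |momentumDistribution k ψ - Real.sqrt (U / (2 * dispersion k))| ≤
                ε * Real.sqrt (U / (2 * dispersion k)) ∧
              |normSq (densityWave k ψ) / (Fintype.card (Site d L) : ℝ) -
                Real.sqrt (dispersion k / (8 * U))| ≤ ε * Real.sqrt (dispersion k / (8 * U)) ∧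
              (1 - ε) * normSq (densityWave k ψ) ≤
                ∑' j, if |e j - Real.sqrt (2 * U * dispersion k)| ≤
                    ε * Real.sqrt (2 * U * dispersion k) then
                  ‖∑' n, (χ j n : ℂ) * densityWave k ψ n‖ ^ 2 else 0 := by
  obtain ⟨U₀, hU₀, h⟩ := modes_real hC d hd ε hε
  refine ⟨U₀, hU₀, fun U hU hUU => ?_⟩
  obtain ⟨L₀, hL₀⟩ := h U hU hUU
  refine ⟨L₀, fun L _ hL hLe => ?_⟩
  obtain ⟨ι, e, χ, h1, h2, h3, h4, h5⟩ := hL₀ L hL hLe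
  have hnn0 : ∀ x y : Fin d → ZMod L, 0 ≤ Pool.Agent.N657.QR.nnw 1 x y := by
    intro x y
    unfold Pool.Agent.N657.QR.nnw
    refine Finset.sum_nonneg fun i _ => ?_
    split_ifs
    · exact zero_le_one
    · exact le_rfl
  have hnn1 : ∀ (x : Fin d → ZMod L) (i : Fin d),
      0 < Pool.Agent.N657.QR.nnw 1 x (x + Pool.Agent.N657.QR.ee i) := by
    intro x i
    unfold Pool.Agent.N657.QR.nnw
    refine lt_of_lt_of_le zero_lt_one (le_trans ?_ (Finset.single_le_sum (f := fun j : Fin d =>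
      if x + Pool.Agent.N657.QR.ee i = x + Pool.Agent.N657.QR.ee j then (1 : ℝ) else 0) ?_
        (Finset.mem_univ i)))
    · simp
    · intro j _
      split_ifs
      · exact zero_le_one
      · exact le_rfl
  have hconn : Pool.Agent.N657.QR.Conn (Pool.Agent.N657.QR.nnw 1 :
      (Fin d → ZMod L) → (Fin d → ZMod L) → ℝ) :=
    Pool.Agent.N657.QR.con.1 _ (Pool.Agent.N657.QR.con.2.1 d L _ fun x i => hnn1 x i)
  have hU1 : (U • (1 : Matrix (Fin d → ZMod L) (Fin d → ZMod L) ℝ)).PosDef :=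
    Matrix.PosDef.one.smul hU
  obtain ⟨Φ, hΦ⟩ := Pool.Agent.N657.QR.ex (U • (1 : Matrix (Fin d → ZMod L) (Fin d → ZMod L) ℝ))
    (Pool.Agent.N657.QR.nnw 1) 0 0 hU1 hnn0
  obtain ⟨hgs, huniq⟩ := Pool.Agent.N657.QR.cpx
    (U • (1 : Matrix (Fin d → ZMod L) (Fin d → ZMod L) ℝ)) (Pool.Agent.N657.QR.nnw 1) 0 0 Φ
    hU1 hnn0 hconn hΦ
  refine ⟨⟨_, (isGroundState_iff U _).2 hgs⟩, ?_, ι, e, χ, h2, h3, h4, ?_⟩
  · intro ψ φ hψ hφ
    obtain ⟨⟨c, hc, hcψ⟩, -⟩ := huniq ψ ((isGroundState_iff U _).1 hψ)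
    obtain ⟨⟨c', hc', hcφ⟩, -⟩ := huniq φ ((isGroundState_iff U _).1 hφ)
    have hc0 : c ≠ 0 := by
      intro h
      rw [h, norm_zero] at hc
      exact zero_ne_one hc
    refine ⟨c' / c, by rw [norm_div, hc, hc', div_one], fun n => ?_⟩
    rw [hcφ n, hcψ n, ← mul_assoc, div_mul_cancel₀ _ hc0]
  intro ψ hψ
  obtain ⟨⟨c, hc, hcψ⟩, hcr⟩ := huniq ψ ((isGroundState_iff U _).1 hψ)
  have hψe : ψ = fun n => c * (Φ n : ℂ) := funext hcψ
  have hen : Pool.Agent.N657.QR.en (U • (1 : Matrix (Fin d → ZMod L) (Fin d → ZMod L) ℝ))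
      (Pool.Agent.N657.QR.nnw 1) 0 0 = energy U ψ := by
    rw [← hΦ.2.2.2, ← energy_eq]
    unfold Pool.Agent.N657.QR.FF Pool.Agent.N657.QR.energy Pool.Agent.N657.QR.po
    simp only [hcr]
    congr 1
    refine tsum_congr fun n => ?_
    rw [hcψ n, norm_mul, hc, one_mul, Complex.norm_real, Real.norm_eq_abs, sq_abs]
    rfl
  refine ⟨fun j => ⟨(h1 j).1, eig_of U (e j) _ (χ j) (h1 j).2 hen⟩, fun k hk => ?_⟩
  obtain ⟨g1, g2, g3⟩ := h5 Φ hΦ k hk
  have hlam : 0 < Pool.Agent.N657.QR.lam k := lt_of_lt_of_le (by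
    have : (0 : ℝ) < L := by exact_mod_cast Nat.pos_of_ne_zero (NeZero.ne L)
    positivity) (pla.low d L k hk)
  obtain ⟨fc1, -, -, -⟩ := inv_ d L U (Pool.Agent.N657.QR.lam k) Φ (ck k) hU hlam hΦ
    (fun x => (pla.lapc d L k x).1)
  obtain ⟨fs1, -, -, -⟩ := inv_ d L U (Pool.Agent.N657.QR.lam k) Φ (sk k) hU hlam hΦ
    (fun x => (pla.lapc d L k x).2)
  have hdis : dispersion k = Pool.Agent.N657.QR.lam k := rfl
  rw [hψe, md_eq c hc, normSq_dw c hc Φ k fc1.1 fs1.1, hdis]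
  refine ⟨g1, g2, g3.trans (le_of_eq (tsum_congr fun j => ?_))⟩
  rw [ov_dw c hc Φ (χ j) k
    (Pool.Agent.N252.QLB.s_ip ⟨χ j, (h1 j).2.1⟩ ⟨dw (ck k) Φ, fc1⟩)
    (Pool.Agent.N252.QLB.s_ip ⟨χ j, (h1 j).2.1⟩ ⟨dw (sk k) Φ, fs1⟩)]

end Pool.Agent.N657.QL.BM
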