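import Pool.Agent.N657.QL.Defs

/-!
# Project QL: statements
-/

namespace Pool.Agent.N657.QL

open MeasureTheory Filter Topology
open Pool.Agent.N657.QR

/-- `μ` is the distribution of the angles in the state `ψ`. -/
def IsMeas {V : Type} [Fintype V] [DecidableEq V] (ψ : (V → ℤ) → ℝ) (μ : Measure (V → ℝ)) : Prop :=
  IsProbabilityMeasure μ ∧ ∀ η : V → ℤ,
    ∫ θ, Real.cos (∑ x, (η x : ℝ) * θ x) ∂μ = ∑' n, ψ (n + η) * ψ n ∧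
    ∫ θ, Real.sin (∑ x, (η x : ℝ) * θ x) ∂μ = 0

/-- MEAS: existence of the distribution of the angles. -/
def S_MEAS : Prop :=
  ∀ {V : Type} [Fintype V] [DecidableEq V] (ψ : (V → ℤ) → ℝ),
    Summable (fun n => ψ n ^ 2) → nr ψ = 1 → ∃ μ : Measure (V → ℝ), IsMeas ψ μ

/-- TPS: trigonometric polynomials are linear combinations of plane waves. -/
def S_TPS : Prop :=
  ∀ {V : Type} [Fintype V] [DecidableEq V] (R : (V → ℝ) → ℝ), R ∈ TP V →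
    ∃ (S : Finset (V → ℤ)) (a b : (V → ℤ) → ℝ), ∀ θ, R θ =
      ∑ η ∈ S, (a η * Real.cos (∑ x, (η x : ℝ) * θ x) + b η * Real.sin (∑ x, (η x : ℝ) * θ x))

/-- TPB: calculus of trigonometric polynomials. -/
structure S_TPB : Prop where
  cont : ∀ {V : Type} [Fintype V] [DecidableEq V] (R : (V → ℝ) → ℝ), R ∈ TP V → Continuous R
  bdd : ∀ {V : Type} [Fintype V] [DecidableEq V] (R : (V → ℝ) → ℝ), R ∈ TP V →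
    ∃ C : ℝ, ∀ θ, |R θ| ≤ C
  hasd : ∀ {V : Type} [Fintype V] [DecidableEq V] (R : (V → ℝ) → ℝ), R ∈ TP V → ∀ x θ,
    HasDerivAt (fun s : ℝ => R (θ + s • Pi.single x 1)) (pd x R θ) 0
  pdmem : ∀ {V : Type} [Fintype V] [DecidableEq V] (R : (V → ℝ) → ℝ), R ∈ TP V → ∀ x,
    pd x R ∈ TP V
  grmem : ∀ {V : Type} [Fintype V] [DecidableEq V] (R : (V → ℝ) → ℝ), R ∈ TP V → gr R ∈ TP V
  pdmul : ∀ {V : Type} [Fintype V] [DecidableEq V] (R S : (V → ℝ) → ℝ), R ∈ TP V → S ∈ TP V →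
    ∀ x θ, pd x (R * S) θ = pd x R θ * S θ + R θ * pd x S θ
  pdadd : ∀ {V : Type} [Fintype V] [DecidableEq V] (R S : (V → ℝ) → ℝ), R ∈ TP V → S ∈ TP V →
    ∀ x θ, pd x (R + S) θ = pd x R θ + pd x S θ
  mem : ∀ {V : Type} [Fintype V] [DecidableEq V] (f : V → ℝ), Xf f ∈ TP V ∧ Yf f ∈ TP V ∧
    mx ∈ TP V ∧ my ∈ TP V ∧ r2 ∈ TP V ∧ Nf f ∈ TP V ∧ Lf f ∈ TP V ∧ Tf f ∈ TP V
  pdX : ∀ {V : Type} [Fintype V] [DecidableEq V] (f : V → ℝ) (x : V) (θ : V → ℝ),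
    pd x (Xf f) θ = -f x * Real.sin (θ x) ∧ pd x (Yf f) θ = f x * Real.cos (θ x)
  pdm : ∀ {V : Type} [Fintype V] [DecidableEq V] (x : V) (θ : V → ℝ),
    pd x mx θ = -Real.sin (θ x) / (Fintype.card V : ℝ) ∧
    pd x my θ = Real.cos (θ x) / (Fintype.card V : ℝ) ∧
    pd x r2 θ = 2 / (Fintype.card V : ℝ) * (my θ * Real.cos (θ x) - mx θ * Real.sin (θ x))
  rot : ∀ {V : Type} [Fintype V] [DecidableEq V] (f : V → ℝ) (θ : V → ℝ) (φ : ℝ),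
    Xf f (fun x => θ x + φ) = Real.cos φ * Xf f θ - Real.sin φ * Yf f θ ∧
    Yf f (fun x => θ x + φ) = Real.sin φ * Xf f θ + Real.cos φ * Yf f θ ∧
    mx (fun x => θ x + φ) = Real.cos φ * mx θ - Real.sin φ * my θ ∧
    my (fun x => θ x + φ) = Real.sin φ * mx θ + Real.cos φ * my θ ∧
    r2 (fun x => θ x + φ) = r2 θ ∧ Nf f (fun x => θ x + φ) = Nf f θ ∧
    Lf f (fun x => θ x + φ) = Lf f θ ∧ Tf f (fun x => θ x + φ) = Tf f θ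
  bounds : ∀ {V : Type} [Fintype V] [DecidableEq V] [Nonempty V] (f : V → ℝ) (θ : V → ℝ),
    0 ≤ r2 θ ∧ r2 θ ≤ 1 ∧ Lf f θ ^ 2 + Tf f θ ^ 2 = r2 θ * Nf f θ ∧
    Nf f θ ≤ (Fintype.card V : ℝ) * ∑ x, f x ^ 2 ∧
    (∑ x, (mx θ * Real.sin (θ x) - my θ * Real.cos (θ x)) ^ 2) ≤
      (Fintype.card V : ℝ) * (r2 θ * (1 - r2 θ)) ∧
    gr r2 θ ≤ 4 / (Fintype.card V : ℝ) * (1 - r2 θ)

/-- OPR: multiplication of the ground state by a trigonometric polynomial. -/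
def S_OPR : Prop :=
  ∀ {V : Type} [Fintype V] [DecidableEq V] [Nonempty V] (U : ℝ) (w : V → V → ℝ)
    (Ψ : (V → ℤ) → ℝ) (μ : Measure (V → ℝ)), 0 < U → (∀ x y, 0 ≤ w x y) →
    IsG (U • (1 : Matrix V V ℝ)) w 0 0 Ψ → IsMeas Ψ μ → ∀ R ∈ TP V,
    ∃ ψ₁ ψ₂ : (V → ℤ) → ℝ, FE ψ₁ ∧ FE ψ₂ ∧ nr ψ₁ + nr ψ₂ = ∫ θ, R θ ^ 2 ∂μ ∧
      (∀ x y, cr x y ψ₁ + cr x y ψ₂ = ∫ θ, Real.cos (θ x - θ y) * R θ ^ 2 ∂μ) ∧
      (∀ x, xx x ψ₁ + xx x ψ₂ = ∫ θ, Real.cos (θ x) * R θ ^ 2 ∂μ) ∧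
      FF (U • (1 : Matrix V V ℝ)) w 0 ψ₁ + FF (U • (1 : Matrix V V ℝ)) w 0 ψ₂ =
        en (U • (1 : Matrix V V ℝ)) w 0 0 * (∫ θ, R θ ^ 2 ∂μ) + U * ∫ θ, gr R θ ∂μ

/-- SYM: symmetries of the neutral ground state. -/
def S_SYM : Prop :=
  ∀ (d L : ℕ) [NeZero L] (U : ℝ) (Ψ : ((Fin d → ZMod L) → ℤ) → ℝ), 0 < U →
    IsG (U • (1 : Matrix (Fin d → ZMod L) (Fin d → ZMod L) ℝ)) (nnw 1) 0 0 Ψ →
    (∀ n n', Ψ (-n) * Ψ (-n') = Ψ n * Ψ n') ∧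
    ∀ (a : Fin d → ZMod L) n n', Ψ (fun x => n (x + a)) * Ψ (fun x => n' (x + a)) = Ψ n * Ψ n'

/-- ENV: the distribution of the angles in the neutral ground state has the properties `Env`. -/
def S_ENV : Prop :=
  ∀ (d L : ℕ) [NeZero L] (U : ℝ) (Ψ : ((Fin d → ZMod L) → ℤ) → ℝ), Even L → 0 < U →
    IsG (U • (1 : Matrix (Fin d → ZMod L) (Fin d → ZMod L) ℝ)) (nnw 1) 0 0 Ψ →
    ∃ μ : Measure ((Fin d → ZMod L) → ℝ), Env U μ ∧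
      ∀ x y, cr x y Ψ = ∫ θ, Real.cos (θ x - θ y) ∂μ

/-- ROTA: averages over global rotations. -/
def S_ROTA : Prop :=
  ∀ (d L : ℕ) [NeZero L] (U : ℝ) (μ : Measure ((Fin d → ZMod L) → ℝ)), Env U μ →
    ∀ (M : ℕ) (f : (Fin d → ZMod L) → ℝ),
      ∫ θ, (1 + mx θ) ^ (2 * M) ∂μ = ∫ θ, AM M (r2 θ) ∂μ ∧
      ∫ θ, (1 + my θ) ^ (2 * M) ∂μ = ∫ θ, AM M (r2 θ) ∂μ ∧
      ∫ θ, Xf f θ * Lf f θ * (1 + mx θ) ^ (2 * M) ∂μ = ∫ θ, cM M (r2 θ) * Lf f θ ^ 2 ∂μ ∧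
      ∫ θ, Xf f θ * Tf f θ * (1 + my θ) ^ (2 * M) ∂μ = -∫ θ, cM M (r2 θ) * Tf f θ ^ 2 ∂μ

/-- RATIO: the polynomials `AM`, `cM`. -/
def S_RATIO : Prop :=
  (∀ δ : ℝ, 0 < δ → ∃ M : ℕ, 1 ≤ M ∧ AM M 1 ≤ (1 + δ) * cM M 1) ∧
  ∀ M : ℕ, 1 ≤ M → 0 < cM M 1 ∧ (∀ u, 0 ≤ u → u ≤ 1 → 1 ≤ AM M u ∧ AM M u ≤ AM M 1 ∧
    0 ≤ cM M u ∧ cM M u ≤ cM M 1) ∧
    ∃ C : ℝ, 0 ≤ C ∧ ∀ u, 0 ≤ u → u ≤ 1 → cM M 1 ≤ u * cM M u + C * (1 - u)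

/-- TRANS: the transverse infrared bound. -/
def S_TRANS : Prop :=
  ∀ (M : ℕ) (δ : ℝ), 0 < δ → ∃ C : ℝ, 0 ≤ C ∧
    ∀ (d L : ℕ) [NeZero L] (U l : ℝ) (μ : Measure ((Fin d → ZMod L) → ℝ))
      (f : (Fin d → ZMod L) → ℝ), 0 < U → 0 < l → Env U μ → (∀ x, lap f x = l * f x) → Cub f →
      ∫ θ, cM M (r2 θ) * Tf f θ ^ 2 ∂μ ≤
        (1 + δ) * AM M 1 * (∑ x, f x ^ 2) * Real.sqrt U / (Real.sqrt 2 * Real.sqrt l) +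
        C * (∑ x, f x ^ 2) * U / ((Fintype.card (Fin d → ZMod L) : ℝ) * l)

/-- LONG: the longitudinal infrared bound. -/
def S_LONG : Prop :=
  ∀ (M : ℕ) (δ : ℝ), 0 < δ → ∃ a₀ C : ℝ, 0 < a₀ ∧ 0 ≤ C ∧
    ∀ (d L : ℕ) [NeZero L] (U l : ℝ) (μ : Measure ((Fin d → ZMod L) → ℝ))
      (f : (Fin d → ZMod L) → ℝ), 0 < U → 0 < l → Env U μ → (∀ x, lap f x = l * f x) → Cub f →
      a1 μ ≤ a₀ →
      ∫ θ, cM M (r2 θ) * Lf f θ ^ 2 ∂μ ≤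
        δ * (∑ x, f x ^ 2) * Real.sqrt U / Real.sqrt l +
        C * (∑ x, f x ^ 2) * U / ((Fintype.card (Fin d → ZMod L) : ℝ) * l)

/-- SQ: the weighted infrared bound for the second moment. -/
def S_SQ : Prop :=
  ∃ C : ℝ, 0 ≤ C ∧ ∀ (d L : ℕ) [NeZero L] (U l : ℝ) (μ : Measure ((Fin d → ZMod L) → ℝ))
      (f : (Fin d → ZMod L) → ℝ), 0 < U → 0 < l → Env U μ → (∀ x, lap f x = l * f x) → Cub f →
      ∫ θ, Xf f θ ^ 2 * (1 - r2 θ) ^ 2 ∂μ ≤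
        C * ((∑ x, f x ^ 2) * Real.sqrt U / Real.sqrt l * a2 μ +
          (∑ x, f x ^ 2) * U / ((Fintype.card (Fin d → ZMod L) : ℝ) * l))

/-- PLA: plane waves on the torus. -/
structure S_PLA : Prop where
  comp : ∀ (d L : ℕ) [NeZero L] (x y : Fin d → ZMod L),
    ∑ k, (ck k x * ck k y + sk k x * sk k y) =
      if x = y then (Fintype.card (Fin d → ZMod L) : ℝ) else 0
  norm : ∀ (d L : ℕ) [NeZero L] (k : Fin d → ZMod L),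
    (∑ x, ck k x ^ 2) + ∑ x, sk k x ^ 2 = (Fintype.card (Fin d → ZMod L) : ℝ)
  zero : ∀ (d L : ℕ) [NeZero L] (x : Fin d → ZMod L), ck 0 x = 1 ∧ sk 0 x = 0
  lapc : ∀ (d L : ℕ) [NeZero L] (k x : Fin d → ZMod L),
    lap (ck k) x = lam k * ck k x ∧ lap (sk k) x = lam k * sk k x
  cub : ∀ (d L : ℕ) [NeZero L] (k : Fin d → ZMod L), k ≠ 0 → 3 • k ≠ 0 →
    Cub (ck k) ∧ Cub (sk k)
  three : ∀ (d L : ℕ) [NeZero L] (k : Fin d → ZMod L), k ≠ 0 → 3 • k = 0 → 3 ≤ lam k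
  few : ∀ (d L : ℕ) [NeZero L],
    ((Finset.univ : Finset (Fin d → ZMod L)).filter (fun k => 3 • k = 0)).card ≤ 3 ^ d
  low : ∀ (d L : ℕ) [NeZero L] (k : Fin d → ZMod L), k ≠ 0 → 16 / (L : ℝ) ^ 2 ≤ lam k
  planch : ∀ (d L : ℕ) [NeZero L] (θ : (Fin d → ZMod L) → ℝ),
    ∑ k ∈ (Finset.univ : Finset (Fin d → ZMod L)).erase 0, (Nf (ck k) θ + Nf (sk k) θ) =
      (Fintype.card (Fin d → ZMod L) : ℝ) ^ 2 * (1 - r2 θ)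

/-- SUMQ: a priori bounds of the first two moments of the depletion. -/
def S_SUMQ : Prop :=
  ∀ d : ℕ, 2 ≤ d → ∃ C : ℝ, 0 < C ∧ ∀ U : ℝ, 0 < U → U ≤ 1 → ∃ L₀ : ℕ, ∀ (L : ℕ) [NeZero L],
    L₀ ≤ L → ∀ μ : Measure ((Fin d → ZMod L) → ℝ), Env U μ →
      a1 μ ≤ C * Real.sqrt U ∧ a2 μ ≤ C * U

/-- UP: the sharp upper bound of the depletion. -/
def S_UP : Prop :=
  ∀ d : ℕ, 2 ≤ d → ∀ ε : ℝ, 0 < ε → ∃ U₀ : ℝ, 0 < U₀ ∧ ∀ U : ℝ, 0 < U → U ≤ U₀ →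
    ∃ L₀ : ℕ, ∀ (L : ℕ) [NeZero L], L₀ ≤ L → ∀ μ : Measure ((Fin d → ZMod L) → ℝ), Env U μ →
      a1 μ ≤ (IL d L / Real.sqrt 2 + ε) * Real.sqrt U

/-- MIN: the neutral point has the lowest energy. -/
def S_MIN : Prop :=
  ∀ {V : Type} [Fintype V] [DecidableEq V] [Nonempty V] (K : Matrix V V ℝ) (w : V → V → ℝ)
    (ν : V → ℝ) (N : ℤ), K.PosSemidef → (∀ x y, 0 ≤ w x y) → en K w 0 0 ≤ en K w ν N

/-- M0: fluctuations of the number of particles in the neutral ground state. -/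
def S_M0 : Prop :=
  ∀ (d L : ℕ) [NeZero L] (U l : ℝ) (Ψ : ((Fin d → ZMod L) → ℤ) → ℝ) (g : (Fin d → ZMod L) → ℝ),
    0 < U → 0 < l →
    IsG (U • (1 : Matrix (Fin d → ZMod L) (Fin d → ZMod L) ℝ)) (nnw 1) 0 0 Ψ →
    (∀ x, lap g x = l * g x) →
    ∑' n, (∑ x, g x * (n x : ℝ)) ^ 2 * Ψ n ^ 2 ≤ (∑ x, g x ^ 2) * Real.sqrt (l / (8 * U))

/-- UNC: the uncertainty relation between the phase and the number of particles. -/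
def S_UNC : Prop :=
  ∀ (d L : ℕ) [NeZero L] (U l : ℝ) (Ψ : ((Fin d → ZMod L) → ℤ) → ℝ) (g : (Fin d → ZMod L) → ℝ),
    0 < U → 0 < l →
    IsG (U • (1 : Matrix (Fin d → ZMod L) (Fin d → ZMod L) ℝ)) (nnw 1) 0 0 Ψ →
    (∀ x, lap g x = l * g x) →
    ((∑ x, ∑ y, cr x y Ψ) / (Fintype.card (Fin d → ZMod L) : ℝ) ^ 2 * (∑ x, g x ^ 2) -
      (∑ x, ∑ y, g x * g y * cr x y Ψ) / (Fintype.card (Fin d → ZMod L) : ℝ)) ^ 2 ≤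
      (∑ x, g x ^ 2) * Real.sqrt (2 * l / U) * ∑ x, ∑ y, g x * g y * cr x y Ψ

/-- LOW: the sharp lower bound of the depletion. -/
def S_LOW : Prop :=
  ∀ d : ℕ, 2 ≤ d → ∀ ε : ℝ, 0 < ε → ∃ U₀ : ℝ, 0 < U₀ ∧ ∀ U : ℝ, 0 < U → U ≤ U₀ →
    ∃ L₀ : ℕ, ∀ (L : ℕ) [NeZero L], L₀ ≤ L → Even L → ∀ Ψ : ((Fin d → ZMod L) → ℤ) → ℝ,
      IsG (U • (1 : Matrix (Fin d → ZMod L) (Fin d → ZMod L) ℝ)) (nnw 1) 0 0 Ψ →
      (IL d L / Real.sqrt 2 - ε) * Real.sqrt U ≤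
        1 - (∑ x, ∑ y, cr x y Ψ) / (Fintype.card (Fin d → ZMod L) : ℝ) ^ 2

/-- RIE: convergence of the lattice sums to the integral. -/
def S_RIE : Prop :=
  ∀ d : ℕ, 2 ≤ d → Tendsto (fun n : ℕ => IL d (n + 1)) atTop (𝓝 (Id d))

end Pool.Agent.N657.QL
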