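import Pool.Agent.N657.QL.Stm2

/-!
# Project QL, third part: momentum distribution, structure factor and excitations, for every mode
-/

namespace Pool.Agent.N657.QL

open MeasureTheory Filter Topology
open Pool.Agent.N657.QR

/-- TRANSN: the transverse infrared bound (without `Cub`). -/
def S_TRANSN : Prop :=
  ∀ (M : ℕ) (δ : ℝ), 0 < δ → ∃ C : ℝ, 0 ≤ C ∧
    ∀ (d L : ℕ) [NeZero L] (U l : ℝ) (μ : Measure ((Fin d → ZMod L) → ℝ))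
      (f : (Fin d → ZMod L) → ℝ), 0 < U → 0 < l → Env U μ → (∀ x, lap f x = l * f x) →
      ∫ θ, cM M (r2 θ) * Tf f θ ^ 2 ∂μ ≤
        (1 + δ) * AM M 1 * (∑ x, f x ^ 2) * Real.sqrt U / (Real.sqrt 2 * Real.sqrt l) +
        C * (∑ x, f x ^ 2) * U / ((Fintype.card (Fin d → ZMod L) : ℝ) * l)

/-- LONGN: the longitudinal infrared bound (without `Cub`). -/
def S_LONGN : Prop :=
  ∀ (M : ℕ) (δ : ℝ), 0 < δ → ∃ a₀ C : ℝ, 0 < a₀ ∧ 0 ≤ C ∧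
    ∀ (d L : ℕ) [NeZero L] (U l : ℝ) (μ : Measure ((Fin d → ZMod L) → ℝ))
      (f : (Fin d → ZMod L) → ℝ), 0 < U → 0 < l → Env U μ → (∀ x, lap f x = l * f x) →
      a1 μ ≤ a₀ →
      ∫ θ, cM M (r2 θ) * Lf f θ ^ 2 ∂μ ≤
        δ * (∑ x, f x ^ 2) * Real.sqrt U / Real.sqrt l +
        C * (∑ x, f x ^ 2) * U / ((Fintype.card (Fin d → ZMod L) : ℝ) * l)

/-- SQN: the weighted infrared bound for the second moment (without `Cub`). -/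
def S_SQN : Prop :=
  ∃ C : ℝ, 0 ≤ C ∧ ∀ (d L : ℕ) [NeZero L] (U l : ℝ) (μ : Measure ((Fin d → ZMod L) → ℝ))
      (f : (Fin d → ZMod L) → ℝ), 0 < U → 0 < l → Env U μ → (∀ x, lap f x = l * f x) →
      ∫ θ, Xf f θ ^ 2 * (1 - r2 θ) ^ 2 ∂μ ≤
        C * ((∑ x, f x ^ 2) * Real.sqrt U / Real.sqrt l * a2 μ +
          (∑ x, f x ^ 2) * U / ((Fintype.card (Fin d → ZMod L) : ℝ) * l))

/-- UPK: the sharp infrared bound for every mode. -/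
def S_UPK : Prop :=
  ∀ d : ℕ, 2 ≤ d → ∀ ε : ℝ, 0 < ε → ∃ U₀ : ℝ, 0 < U₀ ∧ ∀ U : ℝ, 0 < U → U ≤ U₀ →
    ∃ L₀ : ℕ, ∀ (L : ℕ) [NeZero L], L₀ ≤ L → ∀ μ : Measure ((Fin d → ZMod L) → ℝ), Env U μ →
      ∀ (l : ℝ) (f : (Fin d → ZMod L) → ℝ), 16 / (L : ℝ) ^ 2 ≤ l →
        (∀ x, lap f x = l * f x) →
        ∫ θ, Nf f θ ∂μ ≤ (1 + ε) * (∑ x, f x ^ 2) * Real.sqrt (U / (2 * l))

/-- The excitation energy of a real wave function above the neutral ground state energy,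
`⟨χ, (H - E₀) χ⟩`. -/
noncomputable def xs {d L : ℕ} [NeZero L] (U : ℝ) (χ : ((Fin d → ZMod L) → ℤ) → ℝ) : ℝ :=
  FF (U • (1 : Matrix (Fin d → ZMod L) (Fin d → ZMod L) ℝ)) (nnw 1) 0 χ -
    en (U • (1 : Matrix (Fin d → ZMod L) (Fin d → ZMod L) ℝ)) (nnw 1) 0 0 * nr χ

/-- The density wave `∑_x g_x n_x` applied to `ψ`. -/
def dw {V : Type} [Fintype V] (g : V → ℝ) (ψ : (V → ℤ) → ℝ) (n : V → ℤ) : ℝ :=
  (∑ x, g x * (n x : ℝ)) * ψ n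

/-- INV: the first inverse moment and the first moment of the density wave. -/
def S_INV : Prop :=
  ∀ (d L : ℕ) [NeZero L] (U l : ℝ) (Ψ : ((Fin d → ZMod L) → ℤ) → ℝ) (g : (Fin d → ZMod L) → ℝ),
    0 < U → 0 < l →
    IsG (U • (1 : Matrix (Fin d → ZMod L) (Fin d → ZMod L) ℝ)) (nnw 1) 0 0 Ψ →
    (∀ x, lap g x = l * g x) →
    FE (dw g Ψ) ∧ Sec 0 (dw g Ψ) ∧ xs U (dw g Ψ) ≤ l / 2 * ∑ x, g x ^ 2 ∧
    ∀ χ : ((Fin d → ZMod L) → ℤ) → ℝ, FE χ → Sec 0 χ →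
      2 * (∑' n, χ n * dw g Ψ n) - xs U χ ≤ (∑ x, g x ^ 2) / (4 * U)

/-- UNM: the uncertainty relation with the fluctuations of the number of particles. -/
def S_UNM : Prop :=
  ∀ (d L : ℕ) [NeZero L] (U l : ℝ) (Ψ : ((Fin d → ZMod L) → ℤ) → ℝ) (g : (Fin d → ZMod L) → ℝ),
    0 < U → 0 < l →
    IsG (U • (1 : Matrix (Fin d → ZMod L) (Fin d → ZMod L) ℝ)) (nnw 1) 0 0 Ψ →
    (∀ x, lap g x = l * g x) →
    ((∑ x, ∑ y, cr x y Ψ) / (Fintype.card (Fin d → ZMod L) : ℝ) ^ 2 * (∑ x, g x ^ 2) -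
      (∑ x, ∑ y, g x * g y * cr x y Ψ) / (Fintype.card (Fin d → ZMod L) : ℝ)) ^ 2 ≤
      4 * nr (dw g Ψ) * ∑ x, ∑ y, g x * g y * cr x y Ψ

/-- A real wave function with `H χ = (E₀ + e) χ`, `H` the Hamiltonian with hopping 1 between nearest
neighbours, `E₀` the ground state energy of the neutral sector. -/
def IsEig {d L : ℕ} [NeZero L] (U e : ℝ) (χ : ((Fin d → ZMod L) → ℤ) → ℝ) : Prop :=
  FE χ ∧ Sec 0 χ ∧ ∀ n, pot (U • (1 : Matrix (Fin d → ZMod L) (Fin d → ZMod L) ℝ)) 0 n * χ n -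
    (∑ x, ∑ y, nnw 1 x y * (χ (hp x y n) + χ (hp y x n))) / 2 =
      (en (U • (1 : Matrix (Fin d → ZMod L) (Fin d → ZMod L) ℝ)) (nnw 1) 0 0 + e) * χ n

/-- SPC: two moment bounds force the spectral weight to concentrate at the energy `om`. -/
def S_SPC : Prop :=
  ∀ (d L : ℕ) [NeZero L] (U om ε : ℝ) (Φ : ((Fin d → ZMod L) → ℤ) → ℝ), 0 < U → 0 < om → 0 ≤ ε →
    FE Φ → Sec 0 Φ → xs U Φ ≤ (1 + ε) * om * nr Φ →
    (∀ χ : ((Fin d → ZMod L) → ℤ) → ℝ, FE χ → Sec 0 χ →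
      2 * (∑' n, χ n * Φ n) - xs U χ ≤ (1 + ε) / om * nr Φ) →
    ∀ (m : ℕ) (e : Fin m → ℝ) (χ : Fin m → ((Fin d → ZMod L) → ℤ) → ℝ),
      (∀ j, 0 < e j ∧ IsEig U (e j) (χ j)) →
      (∀ i j, ∑' n, χ i n * χ j n = if i = j then 1 else 0) →
      ∑ j, (∑' n, χ j n * Φ n) ^ 2 * (e j / om + om / e j - 2) ≤ 2 * ε * nr Φ

/-- MOD: Bogoliubov's theory for every mode of the neutral ground state. -/
def S_MOD : Prop :=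
  ∀ d : ℕ, 2 ≤ d → ∀ ε : ℝ, 0 < ε → ∃ U₀ : ℝ, 0 < U₀ ∧ ∀ U : ℝ, 0 < U → U ≤ U₀ →
    ∃ L₀ : ℕ, ∀ (L : ℕ) [NeZero L], L₀ ≤ L → Even L → ∀ Ψ : ((Fin d → ZMod L) → ℤ) → ℝ,
      IsG (U • (1 : Matrix (Fin d → ZMod L) (Fin d → ZMod L) ℝ)) (nnw 1) 0 0 Ψ →
      ∀ (l : ℝ) (g : (Fin d → ZMod L) → ℝ), 16 / (L : ℝ) ^ 2 ≤ l → (∀ x, lap g x = l * g x) →
        -- momentum distribution
        (1 - ε) * (∑ x, g x ^ 2) * Real.sqrt (U / (2 * l)) ≤ ∑ x, ∑ y, g x * g y * cr x y Ψ ∧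
        ∑ x, ∑ y, g x * g y * cr x y Ψ ≤ (1 + ε) * (∑ x, g x ^ 2) * Real.sqrt (U / (2 * l)) ∧
        -- structure factor
        (1 - ε) * (∑ x, g x ^ 2) * Real.sqrt (l / (8 * U)) ≤ nr (dw g Ψ) ∧
        nr (dw g Ψ) ≤ (∑ x, g x ^ 2) * Real.sqrt (l / (8 * U)) ∧
        -- excitations
        xs U (dw g Ψ) ≤ (1 + ε) * Real.sqrt (2 * U * l) * nr (dw g Ψ) ∧
        ∀ χ : ((Fin d → ZMod L) → ℤ) → ℝ, FE χ → Sec 0 χ →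
          2 * (∑' n, χ n * dw g Ψ n) - xs U χ ≤ (1 + ε) / Real.sqrt (2 * U * l) * nr (dw g Ψ)

end Pool.Agent.N657.QL
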